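import Pool.Agent.W886.CS.Stm1
import Pool.Agent.H620R2.Gauge.Upper

/-!
# Exponential time is contained in nondeterministic exponential time, relative to an oracle
-/

set_option autoImplicit false

namespace Pool.Agent.W557.CSEXN

open Pool.Agent.NPC Pool.Agent.H620R2.Gauge Pool.Agent.H622R2

/-- the next action: simulate the algorithm until there are as many answers as the length of the
witness -/
def D2 (D : List Bool → List Bool) (z : List Bool) : List Bool :=
  if (unpair z).2.length < (unpair (unpair z).1).1.length then
    D (pairBits (unpair (unpair z).1).2 (unpair z).2) else []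

theorem poly_D2 {D : List Bool → List Bool} (hD : Poly D) : Poly (D2 D) := by
  have h1 : Poly (fun z : List Bool => (unpair z).1) := Poly.fst poly_unpair
  have h2 : Poly (fun z : List Bool => (unpair z).2) := Poly.snd poly_unpair
  have h3 : Poly (fun z : List Bool => (unpair (unpair z).1).1) := h1.comp h1
  have h4 : Poly (fun z : List Bool => (unpair (unpair z).1).2) := h2.comp h1
  exact Poly.ite (Poly.decide_lt (Poly.length h2) (Poly.length h3))
    (hD.comp (poly_pairBits h4 h2)) (NPC.Poly.const [])

theorem task : Pool.Agent.W886.CS.S_EXN := by
  rintro A L ⟨M, hM⟩
  have hD := poly_of_polyTime M.poly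
  have h1 : Poly (fun z : List Bool => (unpair z).1) := Poly.fst poly_unpair
  obtain ⟨q, hq⟩ := h1.sz_le
  let N : Alg := ⟨D2 M.D, polyTime_of_poly_list (poly_D2 hD),
    q.comp (Polynomial.C 4 * Polynomial.X + Polynomial.C 1) + 1⟩
  have hN : ∀ y, (unpair y).1.length + 1 ≤ N.p.eval y.length := by
    intro y
    show _ ≤ (q.comp (Polynomial.C 4 * Polynomial.X + Polynomial.C 1) + 1).eval y.length
    rw [Polynomial.eval_add, Polynomial.eval_one, Polynomial.eval_comp]
    have h3 := length_lt_sz (unpair y).1
    have h4 := hq y
    have h5 := sz_listBool_le y
    have h6 : q.eval (sz y) ≤ q.eval (Polynomial.eval y.length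
        (Polynomial.C 4 * Polynomial.X + Polynomial.C 1)) := by
      apply eval_mono
      simpa using h5
    exact Nat.succ_le_succ ((h3.le.trans h4).trans h6)
  -- the new algorithm always stops
  have hstop : ∀ (y : List Bool) (n : ℕ) (a : List Bool), (unpair y).1.length + 1 ≤ n + a.length →
      1 ≤ n → ∃ z, N.run A y n a = some z := by
    intro y n
    induction n with
    | zero => intro a _ h; omega
    | succ n ih =>
      intro a ha _
      rcases hq' : N.D (pairBits y a) with _ | ⟨c, r⟩
      · exact ⟨[], by simp only [Alg.run, hq']⟩
      · cases c with
        | true => exact ⟨r, by simp only [Alg.run, hq']⟩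
        | false =>
          simp only [Alg.run, hq']
          have h7 : a.length + 1 ≤ (unpair y).1.length := by
            by_contra hcon
            have : N.D (pairBits y a) = [] := by
              show D2 M.D (pairBits y a) = []
              unfold D2
              rw [unpair_pairBits]
              exact if_neg (show ¬ a.length < (unpair y).1.length from hcon)
            rw [this] at hq'
            exact absurd hq' (by simp)
          refine ih _ ?_ ?_
          · rw [List.length_append, List.length_singleton]
            omega
          · omega
  have hout : ∀ y, ∃ z, N.out A y = some z := fun y =>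
    hstop y _ [] (by simpa using hN y) (le_trans (Nat.succ_le_succ (Nat.zero_le _)) (hN y))
  choose V hV using hout
  -- it gives the output of the given algorithm if the witness is long enough
  have hsim : ∀ (w x z : List Bool) (n n' : ℕ) (a : List Bool), n ≤ n' →
      n + a.length ≤ w.length →
      M.run A x n a = some z → N.run A (pairBits w x) n' a = some z := by
    intro w x z n
    induction n with
    | zero => intro n' a _ _ h; simp [Alg.run] at h
    | succ n ih =>
      intro n' a hn ha h
      obtain ⟨n', rfl⟩ : ∃ k, n' = k + 1 := ⟨n' - 1, by omega⟩
      have h8 : N.D (pairBits (pairBits w x) a) = M.D (pairBits x a) := by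
        show D2 M.D (pairBits (pairBits w x) a) = M.D (pairBits x a)
        unfold D2
        rw [unpair_pairBits]
        show (if a.length < (unpair (pairBits w x)).1.length then
          M.D (pairBits (unpair (pairBits w x)).2 a) else []) = M.D (pairBits x a)
        rw [unpair_pairBits]
        exact if_pos (show a.length < w.length by omega)
      rcases hq' : M.D (pairBits x a) with _ | ⟨c, r⟩
      · simpa only [Alg.run, h8, hq'] using h
      · cases c with
        | true => simpa only [Alg.run, h8, hq'] using h
        | false =>
          simp only [Alg.run, h8, hq'] at h ⊢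
          refine ih n' _ (by omega) ?_ h
          rw [List.length_append, List.length_singleton]
          omega
  have hval : ∀ (w x z : List Bool), w.length = 2 ^ M.p.eval x.length →
      M.run A x (2 ^ M.p.eval x.length) [] = some z → V (pairBits w x) = z := by
    intro w x z hw hz
    have h9 : N.out A (pairBits w x) = some z := by
      refine hsim w x z _ _ [] ?_ ?_ hz
      · have := hN (pairBits w x)
        rw [unpair_pairBits] at this
        simp only at this
        omega
      · simp [hw]
    rw [hV] at h9
    exact Option.some.inj h9
  refine ⟨V, M.p, ⟨N, hV⟩, fun x => ?_⟩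
  obtain ⟨z, hz, hL⟩ := hM x
  rw [hL]
  constructor
  · intro h
    refine ⟨List.replicate (2 ^ M.p.eval x.length) false, List.length_replicate, ?_⟩
    rw [hval _ x z List.length_replicate hz]
    exact h
  · rintro ⟨w, hw, h⟩
    rw [hval w x z hw hz] at h
    exact h

end Pool.Agent.W557.CSEXN
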