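import Pool.Agent.W518.PR.Stm

/-!
# PR-EXT: extension of functionals (project PR, helper518)
-/

set_option autoImplicit false

open CategoryTheory Limits

namespace Pool.Agent.W557.PRExt

open Pool.Agent.W518.PR

section
variable {P : Type} [CommRing P] (K : ModCx P)

lemma nat_d (n : ℕ) : K.nat.d n (n + 1) = ModuleCat.ofHom (K.d n) := by
  unfold ModCx.nat
  exact CochainComplex.of_d (fun n => ModuleCat.of P (K.X n)) (fun n => ModuleCat.ofHom (K.d n)) n

lemma nat_exactAt (h : K.Pos) (n : ℕ) : K.nat.ExactAt (n + 1) := by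
  rw [HomologicalComplex.exactAt_iff' _ n (n + 1) (n + 2) (by simp) (by simp),
    ShortComplex.moduleCat_exact_iff]
  intro c hc
  change (K.nat.d (n + 1) (n + 2)).hom c = 0 at hc
  rw [nat_d] at hc
  obtain ⟨b, hb⟩ := h n c hc
  refine ⟨b, ?_⟩
  change (K.nat.d n (n + 1)).hom b = c
  rw [nat_d]
  exact hb

lemma cx_isLE (h : K.Pos) : K.cx.IsLE 0 := by
  rw [CochainComplex.isLE_iff]
  intro i hi
  obtain ⟨n, hn⟩ : ∃ n : ℕ, i = ((n + 1 : ℕ) : ℤ) := ⟨(i - 1).toNat, by push_cast; omega⟩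
  subst hn
  exact (HomologicalComplex.extend_exactAt_iff K.nat ComplexShape.embeddingUpNat
    (j := n + 1) (by simp)).2 (nat_exactAt K h n)

instance cx_isStrictlyGE : K.cx.IsStrictlyGE 0 := by
  unfold ModCx.cx
  infer_instance

/-- the homology in degree zero -/
noncomputable def h0 : K.nat.homology 0 ≅ ModuleCat.of P (LinearMap.ker (K.d 0)) :=
  K.nat.isoHomologyπ₀.symm ≪≫ K.nat.cyclesIsoSc' 0 0 1 (by simp) (by simp) ≪≫
    (K.nat.sc' 0 0 1).moduleCatCyclesIso ≪≫
    (LinearEquiv.ofEq (LinearMap.ker (K.nat.sc' 0 0 1).g.hom) (LinearMap.ker (K.d 0)) (by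
      change LinearMap.ker (K.nat.d 0 1).hom = _
      rw [nat_d]
      rfl)).toModuleIso

/-- `K` is its cohomology in degree zero -/
theorem exists_iso [HasDerivedCategory.{1} (ModuleCat.{0} P)] (h : K.Pos) :
    Nonempty (DerivedCategory.Q.obj K.cx ≅
      (DerivedCategory.singleFunctor (ModuleCat.{0} P) 0).obj
        (ModuleCat.of P (LinearMap.ker (K.d 0)))) := by
  have := cx_isLE K h
  obtain ⟨Y, ⟨e⟩⟩ :=
    DerivedCategory.exists_iso_singleFunctor_obj_of_isGE_of_isLE (DerivedCategory.Q.obj K.cx) 0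
  have e1 : (DerivedCategory.homologyFunctor (ModuleCat.{0} P) 0).obj (DerivedCategory.Q.obj K.cx)
      ≅ Y := (DerivedCategory.homologyFunctor (ModuleCat.{0} P) 0).mapIso e ≪≫
        (DerivedCategory.singleFunctorCompHomologyFunctorIso (ModuleCat.{0} P) 0).app Y
  have e2 : K.cx.homology 0 ≅ K.nat.homology 0 :=
    HomologicalComplex.extendHomologyIso K.nat ComplexShape.embeddingUpNat (j := 0) (by simp)
  have e3 : Y ≅ ModuleCat.of P (LinearMap.ker (K.d 0)) :=
    e1.symm ≪≫ (DerivedCategory.homologyFunctorFactors (ModuleCat.{0} P) 0).app K.cx ≪≫ e2 ≪≫ h0 K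
  exact ⟨e ≪≫ (DerivedCategory.singleFunctor (ModuleCat.{0} P) 0).mapIso e3⟩

end

theorem main : S_extend := by
  intro P _ K hK hE A B _ _ _ _ f g hf hg hfg l
  let _ : HasDerivedCategory.{1} (ModuleCat.{0} P) := HasDerivedCategory.standard _
  let _ : HasExt.{1} (ModuleCat.{0} P) := HasExt.standard _
  obtain ⟨e⟩ := exists_iso K hK
  -- the first `Ext` vanishes
  have hx : ∀ x : Abelian.Ext (ModuleCat.of P (LinearMap.ker (K.d 0))) (ModuleCat.of P P) 1,
      x = 0 := by
    intro x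
    apply Abelian.Ext.ext
    rw [Abelian.Ext.zero_hom]
    have h1 := hE (e.hom ≫ x.hom)
    have h2 := (Preadditive.IsIso.comp_left_eq_zero e.hom x.hom).1 h1
    exact h2
  -- the short exact sequence
  let S : ShortComplex (ModuleCat.{0} P) := ShortComplex.mk (ModuleCat.ofHom f) (ModuleCat.ofHom g)
    (by
      ext a
      exact congrArg Subtype.val ((hfg (f a)).2 ⟨a, rfl⟩))
  have hS : S.ShortExact := by
    refine ShortComplex.ShortExact.mk' ?_ ?_ ?_
    · rw [ShortComplex.moduleCat_exact_iff]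
      intro b hb
      exact (hfg b).1 hb
    · exact (ModuleCat.mono_iff_injective _).2 hf
    · exact (ModuleCat.epi_iff_surjective _).2 hg
  obtain ⟨x₂, hx₂⟩ := Abelian.Ext.contravariant_sequence_exact₁ hS (ModuleCat.of P P)
    (Abelian.Ext.mk₀ (ModuleCat.ofHom l)) (n₁ := 1) rfl (hx _)
  obtain ⟨m, rfl⟩ := (Abelian.Ext.mk₀_bijective _ _).2 x₂
  rw [Abelian.Ext.mk₀_comp_mk₀] at hx₂
  have h3 := (Abelian.Ext.mk₀_bijective _ _).1 hx₂
  refine ⟨m.hom, fun a => ?_⟩
  have h4 := congrArg (fun φ => φ.hom a) h3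
  exact h4

end Pool.Agent.W557.PRExt
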