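import Pool.Agent.W997.NL.Stm

/-!
# Project NL: the chain of estimates in the composite graph
-/

set_option autoImplicit false

namespace Pool.Agent.W557.NLCHAIN

open Finset
open Pool.Agent.W997.SR (Dag)
open Pool.Agent.W997.NL

open Classical in
/-- the number of the `j` with a property -/
noncomputable def cnt {J : Type} [Fintype J] (P : J → Prop) : ℕ := (univ.filter P).card

/-- first time -/
theorem first {Γ : Type} (C : ℕ → Finset Γ) (v : Γ) (a t : ℕ) (hat : a ≤ t) (h : v ∈ C t)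
    (h0 : v ∉ C a) : ∃ s, a ≤ s ∧ s < t ∧ v ∉ C s ∧ v ∈ C (s + 1) := by
  induction t, hat using Nat.le_induction with
  | base => exact absurd h h0
  | succ t hat ih =>
    by_cases ht : v ∈ C t
    · obtain ⟨s, h1, h2, h3, h4⟩ := ih ht
      exact ⟨s, h1, h2.trans (Nat.lt_succ_self t), h3, h4⟩
    · exact ⟨t, hat, Nat.lt_succ_self t, ht, h⟩

/-- legal sequences -/
def Leg {Γ : Type} (kid : Γ → Finset Γ) (C : ℕ → Finset Γ) : Prop :=
  ∀ t, ∀ v ∈ C (t + 1), v ∉ C t → kid v ⊆ C t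

open Classical in
theorem cnt_union {J : Type} [Fintype J] (P Q R : J → Prop) (h : ∀ j, P j → Q j ∨ R j) :
    cnt P ≤ cnt Q + cnt R := by
  unfold cnt
  refine le_trans (card_le_card ?_) (card_union_le _ _)
  intro j hj
  rw [mem_union, mem_filter, mem_filter]
  rcases h j (mem_filter.1 hj).2 with h' | h'
  · exact Or.inl ⟨mem_univ _, h'⟩
  · exact Or.inr ⟨mem_univ _, h'⟩

open Classical in
theorem cnt_inj {J Γ : Type} [Fintype J] (P : J → Prop) (f : J → Γ) (hf : Function.Injective f)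
    (A : Finset Γ) (h : ∀ j, P j → f j ∈ A) : cnt P ≤ A.card := by
  unfold cnt
  refine card_le_card_of_injOn f ?_ hf.injOn
  intro j hj
  exact h j (mem_filter.1 hj).2

theorem placed_eq {Γ I : Type} [Fintype I] (C : ℕ → Finset Γ) (a b : ℕ) (f : I → Γ) :
    placed C a b f = cnt (fun j => ∃ t, a ≤ t ∧ t < b ∧ f j ∉ C t ∧ f j ∈ C (t + 1)) := rfl

theorem step {Γ : Type} {kid : Γ → Finset Γ} {C : ℕ → Finset Γ} (hL : Leg kid C) (a b : ℕ)
    {J : Type} [Fintype J] (f g : J → Γ) (hk : ∀ j, g j ∈ kid (f j)) :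
    placed C a b f ≤ placed C a b g + cnt (fun j => g j ∈ C a) := by
  rw [placed_eq, placed_eq]
  refine cnt_union _ _ _ ?_
  rintro j ⟨t, h1, h2, h3, h4⟩
  have h5 : g j ∈ C t := hL t (f j) h4 h3 (hk j)
  by_cases h6 : g j ∈ C a
  · exact Or.inr h6
  · obtain ⟨s, h7, h8, h9, h10⟩ := first C (g j) a t h1 h5 h6
    exact Or.inl ⟨s, h7, h8.trans h2, h9, h10⟩

open Classical in
theorem cnt_dbl {I : Type} [Fintype I] (P : I → Prop) :
    cnt (fun p : Bool × I => P p.2) = 2 * cnt P := by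
  unfold cnt
  have h : (univ.filter (fun p : Bool × I => P p.2)) =
      (univ : Finset Bool) ×ˢ (univ.filter P) := by
    ext p
    simp only [mem_filter, mem_univ, true_and, mem_product]
  rw [h, card_product, card_univ, Fintype.card_bool]

theorem placed_dbl {Γ I : Type} [Fintype I] (C : ℕ → Finset Γ) (a b : ℕ) (f : I → Γ) :
    placed C a b (fun p : Bool × I => f p.2) = 2 * placed C a b f := by
  rw [placed_eq, placed_eq]
  exact cnt_dbl (fun j => ∃ t, a ≤ t ∧ t < b ∧ f j ∉ C t ∧ f j ∈ C (t + 1))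

theorem cnt_le {J Γ : Type} [Fintype J] (f : J → Γ) (hf : Function.Injective f) (A : Finset Γ) :
    cnt (fun j => f j ∈ A) ≤ A.card := cnt_inj _ f hf A fun _ h => h

section sub

open Classical

variable {Δ Γ : Type} [Fintype Δ] (c : Δ → Γ) (C : ℕ → Finset Γ)

/-- part of the configurations -/
noncomputable def sb (t : ℕ) : Finset Δ := univ.filter (fun v => c v ∈ C t)

theorem mem_sb (t : ℕ) (v : Δ) : v ∈ sb c C t ↔ c v ∈ C t := by
  unfold sb
  rw [mem_filter]
  exact and_iff_right (mem_univ _)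

theorem placed_sb {J : Type} [Fintype J] (a b : ℕ) (f : J → Δ) :
    placed (sb c C) a b f = placed C a b (fun j => c (f j)) := by
  unfold placed
  simp only [mem_sb]

theorem card_sb (hc : Function.Injective c) (t : ℕ) : (sb c C t).card ≤ (C t).card := by
  refine card_le_card_of_injOn c ?_ hc.injOn
  intro v hv
  exact (mem_sb c C t v).1 hv

theorem cnt_sb {J : Type} [Fintype J] (f : J → Δ) (hf : Function.Injective f) (t : ℕ) :
    cnt (fun j => c (f j) ∈ C t) ≤ (sb c C t).card := by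
  have h := cnt_le f hf (sb c C t)
  simp only [mem_sb] at h
  exact h

theorem leg_sb {kid : Γ → Finset Γ} {kid' : Δ → Finset Δ} (c : Δ → Γ) {C : ℕ → Finset Γ}
    (hL : Leg kid C) (hk : ∀ v, ∀ w ∈ kid' v, c w ∈ kid (c v)) : Leg kid' (sb c C) := by
  intro t v hv hv' w hw
  rw [mem_sb] at hv hv' ⊢
  exact hL t (c v) hv hv' (hk v w hw)

end sub

theorem main : S_CHAIN := by
  intro I _ _ S G hS hD C hL0
  have hL : Leg (compKid S G) C := hL0
  have e1 : sub1 S G C = sb (Cell.g1 (I := I) (S := S.G.Γ) (V := G.G.Γ)) C := by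
    funext t
    ext v
    rw [mem_sb]
    unfold sub1
    rw [mem_filter]
    exact and_iff_right (mem_univ _)
  have e2 : sub2 S G C = sb (Cell.g2 (I := I) (S := S.G.Γ) (V := G.G.Γ)) C := by
    funext t
    ext v
    rw [mem_sb]
    unfold sub2
    rw [mem_filter]
    exact and_iff_right (mem_univ _)
  -- the children in the composite graph
  have k1 : ∀ v, ∀ w ∈ G.G.kid v, (Cell.g1 w : Cell I S.G.Γ G.G.Γ) ∈ compKid S G (Cell.g1 v) := by
    intro v w hw
    exact mem_union_left _ (mem_image_of_mem _ hw)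
  have k2 : ∀ v, ∀ w ∈ G.G.kid v, (Cell.g2 w : Cell I S.G.Γ G.G.Γ) ∈ compKid S G (Cell.g2 v) := by
    intro v w hw
    exact mem_union_left _ (mem_image_of_mem _ hw)
  have k3 : ∀ v, ∀ w ∈ S.G.kid v, (Cell.s1 w : Cell I S.G.Γ G.G.Γ) ∈ compKid S G (Cell.s1 v) := by
    intro v w hw
    exact mem_union_left _ (mem_image_of_mem _ hw)
  have k4 : ∀ v, ∀ w ∈ S.G.kid v, (Cell.s2 w : Cell I S.G.Γ G.G.Γ) ∈ compKid S G (Cell.s2 v) := by
    intro v w hw
    exact mem_union_left _ (mem_image_of_mem _ hw)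
  have c1 : ∀ p : Bool × I, (Cell.s2 (S.out p.2) : Cell I S.G.Γ G.G.Γ) ∈
      compKid S G (Cell.out p) := by
    intro p
    exact mem_insert_self _ _
  have c2 : ∀ j : I, (Cell.g2 (G.out j) : Cell I S.G.Γ G.G.Γ) ∈
      compKid S G (Cell.s2 (S.inp j)) := by
    intro j
    exact mem_union_right _ (mem_image.2 ⟨j, mem_filter.2 ⟨mem_univ _, rfl⟩, rfl⟩)
  have c3 : ∀ j : I, (Cell.g1 (G.out j) : Cell I S.G.Γ G.G.Γ) ∈
      compKid S G (Cell.g2 (G.inp j)) := by
    intro j
    exact mem_union_right _ (mem_image.2 ⟨j, mem_filter.2 ⟨mem_univ _, rfl⟩, rfl⟩)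
  have c4 : ∀ j : I, (Cell.s1 (S.out j) : Cell I S.G.Γ G.G.Γ) ∈
      compKid S G (Cell.g1 (G.inp j)) := by
    intro j
    exact mem_union_right _ (mem_image.2 ⟨j, mem_filter.2 ⟨mem_univ _, rfl⟩, rfl⟩)
  have c5 : ∀ p : Bool × I, (Cell.inp p : Cell I S.G.Γ G.G.Γ) ∈
      compKid S G (Cell.s1 (S.inp p.2)) := by
    intro p
    exact mem_union_right _ (mem_image.2 ⟨p, mem_filter.2 ⟨mem_univ _, rfl⟩, rfl⟩)
  have l1 : Leg G.G.kid (sb (Cell.g1 (I := I) (S := S.G.Γ) (V := G.G.Γ)) C) := leg_sb _ hL k1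
  have l2 : Leg G.G.kid (sb (Cell.g2 (I := I) (S := S.G.Γ) (V := G.G.Γ)) C) := leg_sb _ hL k2
  have l3 : Leg S.G.kid (sb (Cell.s1 (I := I) (S := S.G.Γ) (V := G.G.Γ)) C) := leg_sb _ hL k3
  have l4 : Leg S.G.kid (sb (Cell.s2 (I := I) (S := S.G.Γ) (V := G.G.Γ)) C) := leg_sb _ hL k4
  rw [e1, e2]
  refine ⟨l1, l2, ?_, ?_⟩
  · intro t
    have h1 : ((sb (Cell.g1 (I := I) (S := S.G.Γ) (V := G.G.Γ)) C t).image
        (Cell.g1 (I := I) (S := S.G.Γ) (V := G.G.Γ))).card =
        (sb (Cell.g1 (I := I) (S := S.G.Γ) (V := G.G.Γ)) C t).card :=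
      card_image_of_injective _ (fun _ _ h => Cell.g1.inj h)
    have h2 : ((sb (Cell.g2 (I := I) (S := S.G.Γ) (V := G.G.Γ)) C t).image
        (Cell.g2 (I := I) (S := S.G.Γ) (V := G.G.Γ))).card =
        (sb (Cell.g2 (I := I) (S := S.G.Γ) (V := G.G.Γ)) C t).card :=
      card_image_of_injective _ (fun _ _ h => Cell.g2.inj h)
    rw [← h1, ← h2, ← card_union_of_disjoint]
    · refine card_le_card ?_
      intro v hv
      rw [mem_union, mem_image, mem_image] at hv
      rcases hv with ⟨w, hw, rfl⟩ | ⟨w, hw, rfl⟩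
      · exact (mem_sb _ _ _ _).1 hw
      · exact (mem_sb _ _ _ _).1 hw
    · rw [disjoint_left]
      intro v hv hv'
      rw [mem_image] at hv hv'
      obtain ⟨w, -, rfl⟩ := hv
      obtain ⟨w', -, h⟩ := hv'
      cases h
  · intro a b
    have b1 := card_sb (Cell.g1 (I := I) (S := S.G.Γ) (V := G.G.Γ)) C (fun _ _ h => Cell.g1.inj h) a
    have b2 := card_sb (Cell.g2 (I := I) (S := S.G.Γ) (V := G.G.Γ)) C (fun _ _ h => Cell.g2.inj h) a
    have b3 := card_sb (Cell.s1 (I := I) (S := S.G.Γ) (V := G.G.Γ)) C (fun _ _ h => Cell.s1.inj h) a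
    have b4 := card_sb (Cell.s2 (I := I) (S := S.G.Γ) (V := G.G.Γ)) C (fun _ _ h => Cell.s2.inj h) a
    refine ⟨?_, ?_, ?_, ?_, ?_⟩
    · intro h
      have s1 := step hL a b (fun p : Bool × I => Cell.out p)
        (fun p : Bool × I => Cell.s2 (S.out p.2)) c1
      rw [placed_dbl C a b (fun j : I => (Cell.s2 (S.out j) : Cell I S.G.Γ G.G.Γ)),
        cnt_dbl (fun j : I => (Cell.s2 (S.out j) : Cell I S.G.Γ G.G.Γ) ∈ C a),
        ← placed_sb (Cell.s2 (I := I) (S := S.G.Γ) (V := G.G.Γ)) C a b S.out] at s1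
      have s2 := cnt_sb (Cell.s2 (I := I) (S := S.G.Γ) (V := G.G.Γ)) C S.out S.out_inj a
      have s3 : placed C a b (comp S G).out = placed C a b (fun p : Bool × I => Cell.out p) := rfl
      have s4 := hS _ l4 a b (by omega)
      have s5 := step hL a b (fun j : I => Cell.s2 (S.inp j)) (fun j : I => Cell.g2 (G.out j)) c2
      have s6 := cnt_sb (Cell.g2 (I := I) (S := S.G.Γ) (V := G.G.Γ)) C G.out G.out_inj a
      rw [placed_sb] at s4 ⊢
      omega
    · have s5 := step l2 a b (fun j : I => G.out j) (fun j : I => G.inp j) hD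
      have s6 := cnt_le G.inp G.inp_inj (sb (Cell.g2 (I := I) (S := S.G.Γ) (V := G.G.Γ)) C a)
      exact s5.trans (Nat.add_le_add_left (s6.trans b2) _)
    · have s5 := step hL a b (fun j : I => Cell.g2 (G.inp j)) (fun j : I => Cell.g1 (G.out j)) c3
      have s6 := cnt_sb (Cell.g1 (I := I) (S := S.G.Γ) (V := G.G.Γ)) C G.out G.out_inj a
      rw [placed_sb, placed_sb]
      exact s5.trans (Nat.add_le_add_left s6 _)
    · have s5 := step l1 a b (fun j : I => G.out j) (fun j : I => G.inp j) hD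
      have s6 := cnt_le G.inp G.inp_inj (sb (Cell.g1 (I := I) (S := S.G.Γ) (V := G.G.Γ)) C a)
      exact s5.trans (Nat.add_le_add_left (s6.trans b1) _)
    · intro h
      rw [placed_sb] at h
      have s1 := step hL a b (fun j : I => Cell.g1 (G.inp j)) (fun j : I => Cell.s1 (S.out j)) c4
      have s2 := cnt_sb (Cell.s1 (I := I) (S := S.G.Γ) (V := G.G.Γ)) C S.out S.out_inj a
      rw [← placed_sb (Cell.s1 (I := I) (S := S.G.Γ) (V := G.G.Γ)) C a b S.out] at s1
      have s4 := hS _ l3 a b (by omega)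
      rw [placed_sb] at s4
      have s5 := step hL a b (fun p : Bool × I => Cell.s1 (S.inp p.2))
        (fun p : Bool × I => Cell.inp p) c5
      rw [placed_dbl C a b (fun j : I => (Cell.s1 (S.inp j) : Cell I S.G.Γ G.G.Γ))] at s5
      have s6 := cnt_le (fun p : Bool × I => (Cell.inp p : Cell I S.G.Γ G.G.Γ))
        (fun _ _ h => Cell.inp.inj h) (C a)
      have s3 : placed C a b (comp S G).inp = placed C a b (fun p : Bool × I => Cell.inp p) := rfl
      rw [s3]
      have s7 := s5.trans (Nat.add_le_add_left s6 _)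
      omega

end Pool.Agent.W557.NLCHAIN
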