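import Pool.Agent.W557.UnifPair

set_option autoImplicit false

namespace Pool.Agent.W557.UnifCfg1

open Pool.Agent.W373.Unif Pool.Agent.W557.UnifPair

variable {p : ℕ} [Fact p.Prime] {L : Type} [LieRing L] [LieAlgebra ℤ_[p] L] {x : X → L}

/-- `idSet` as a submodule -/
noncomputable def idSub (M : Model ℤ_[p] L x) (m l : ℕ) (V2 : Submodule (ZMod p) (W2 → ZMod p))
    (V3 : Submodule (ZMod p) (W3 → ZMod p)) (V4 : Submodule (ZMod p) (W4 → ZMod p)) :
    Submodule ℤ_[p] L where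
  carrier := idSet M m l V2 V3 V4
  add_mem' := by
    rintro y z ⟨h1, h2, h3, h4, h5⟩ ⟨k1, k2, k3, k4, k5⟩
    refine ⟨?_, fun a ha => ?_, fun F hF => ?_, fun F hF => ?_, fun F hF => ?_⟩
    · rw [map_add]; exact dvd_add h1 k1
    · rw [map_add]; exact dvd_add (h2 a ha) (k2 a ha)
    · rw [pr2_add, h3 F hF, k3 F hF, add_zero]
    · rw [pr3_add, h4 F hF, k4 F hF, add_zero]
    · rw [pr4_add, h5 F hF, k5 F hF, add_zero]
  zero_mem' := by
    refine ⟨by simp, fun a _ => by simp, fun F _ => pr2_zero M F, fun F _ => pr3_zero M F,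
      fun F _ => pr4_zero M F⟩
  smul_mem' := by
    rintro t y ⟨h1, h2, h3, h4, h5⟩
    refine ⟨?_, fun a ha => ?_, fun F hF => ?_, fun F hF => ?_, fun F hF => ?_⟩
    · rw [map_smul]; exact Dvd.dvd.mul_left h1 t
    · rw [map_smul]; exact Dvd.dvd.mul_left (h2 a ha) t
    · rw [pr2_smul, h3 F hF, mul_zero]
    · rw [pr3_smul, h4 F hF, mul_zero]
    · rw [pr4_smul, h5 F hF, mul_zero]

theorem lie_x_mem (M : Model ℤ_[p] L x) (m l : ℕ) (V2 : Submodule (ZMod p) (W2 → ZMod p))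
    (V3 : Submodule (ZMod p) (W3 → ZMod p)) (V4 : Submodule (ZMod p) (W4 → ZMod p))
    (h5 : 5 < p) (hm : 1 ≤ m) (hl : 1 ≤ l) (hV2 : V2 ≤ C2 (ZMod p)) (hV3 : V3 ≤ D3 V2)
    (hV4 : V4 ≤ D4 V3) (a : X) (y : L) (hy : y ∈ idSub M m l V2 V3 V4) :
    ⁅x a, y⁆ ∈ idSub M m l V2 V3 V4 := by
  obtain ⟨e1, e2, e3, e4, e5⟩ := hy
  refine ⟨by rw [cf1_lie]; simp, fun b _ => by rw [cf1_lie]; simp, fun F hF => ?_,
    fun F hF => ?_, fun F hF => ?_⟩
  · rw [pr2_lie M (hV2 hF)]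
    have : ∑ b, F (a, b) * red p (M.cf1 y b) = 0 := by
      refine Finset.sum_eq_zero fun b _ => ?_
      by_cases hb : b = 5
      · rw [hb, red_of_dvd hm e1, mul_zero]
      · rw [red_of_dvd hl (e2 b hb), mul_zero]
    rw [this, mul_zero]
  · have h1 := (hV3 hF)
    have h2 := pr3_lie M h1.1 a (hV2 (h1.2 a)) y
    rw [e3 _ (h1.2 a), mul_zero] at h2
    exact (mul_eq_zero.mp h2).resolve_left (two_ne h5)
  · have h1 := (hV4 hF)
    have h2 := pr4_lie M h1.1 a y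
    rw [e4 _ (h1.2 a), mul_zero] at h2
    exact (mul_eq_zero.mp h2).resolve_left (three_ne h5)

theorem lie_mem_of (M : Model ℤ_[p] L x) (I : Submodule ℤ_[p] L)
    (h : ∀ a : X, ∀ y ∈ I, ⁅x a, y⁆ ∈ I) (z : L) : ∀ y ∈ I, ⁅z, y⁆ ∈ I := by
  have hb : ∀ (a : X) (z : L), (∀ y ∈ I, ⁅z, y⁆ ∈ I) → ∀ y ∈ I, ⁅⁅x a, z⁆, y⁆ ∈ I := by
    intro a z hz y hy
    rw [lie_lie]
    exact I.sub_mem (h a _ (hz y hy)) (hz _ (h a y hy))
  refine ind (P := fun z => ∀ y ∈ I, ⁅z, y⁆ ∈ I) M h (fun w => hb w.1 _ (h w.2)) (fun w => ?_)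
    (fun w => ?_) (fun y _ => by rw [zero_lie]; exact I.zero_mem) (fun y z hy hz u hu => ?_)
    (fun t y hy u hu => ?_) z
  · exact hb w.1 _ (hb w.2.1 _ (h w.2.2))
  · exact hb w.1 _ (hb w.2.1 _ (hb w.2.2.1 _ (h w.2.2.2)))
  · rw [add_lie]; exact I.add_mem (hy u hu) (hz u hu)
  · rw [smul_lie]; exact I.smul_mem t (hy u hu)

theorem pr2_addF (M : Model ℤ_[p] L x) (F G : W2 → ZMod p) (y : L) :
    pr2 M (F + G) y = pr2 M F y + pr2 M G y := by
  simp [pr2, mul_add, Finset.sum_add_distrib]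
theorem pr3_addF (M : Model ℤ_[p] L x) (F G : W3 → ZMod p) (y : L) :
    pr3 M (F + G) y = pr3 M F y + pr3 M G y := by
  simp [pr3, mul_add, Finset.sum_add_distrib]
theorem pr4_addF (M : Model ℤ_[p] L x) (F G : W4 → ZMod p) (y : L) :
    pr4 M (F + G) y = pr4 M F y + pr4 M G y := by
  simp [pr4, mul_add, Finset.sum_add_distrib]

theorem pr2_smulF (M : Model ℤ_[p] L x) (t : ZMod p) (F : W2 → ZMod p) (y : L) :
    pr2 M (t • F) y = t • pr2 M F y := by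
  simp only [pr2, Pi.smul_apply, smul_eq_mul, Finset.mul_sum]
  exact Finset.sum_congr rfl fun w _ => by ring
theorem pr3_smulF (M : Model ℤ_[p] L x) (t : ZMod p) (F : W3 → ZMod p) (y : L) :
    pr3 M (t • F) y = t • pr3 M F y := by
  simp only [pr3, Pi.smul_apply, smul_eq_mul, Finset.mul_sum]
  exact Finset.sum_congr rfl fun w _ => by ring
theorem pr4_smulF (M : Model ℤ_[p] L x) (t : ZMod p) (F : W4 → ZMod p) (y : L) :
    pr4 M (t • F) y = t • pr4 M F y := by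
  simp only [pr4, Pi.smul_apply, smul_eq_mul, Finset.mul_sum]
  exact Finset.sum_congr rfl fun w _ => by ring

/-- pairing as a functional -/
noncomputable def L2 (M : Model ℤ_[p] L x) (V2 : Submodule (ZMod p) (W2 → ZMod p)) (y : L) :
    Module.Dual (ZMod p) V2 where
  toFun F := pr2 M F.1 y
  map_add' F G := pr2_addF M F.1 G.1 y
  map_smul' t F := pr2_smulF M t F.1 y

/-- pairing as a functional -/
noncomputable def L3 (M : Model ℤ_[p] L x) (V3 : Submodule (ZMod p) (W3 → ZMod p)) (y : L) :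
    Module.Dual (ZMod p) V3 where
  toFun F := pr3 M F.1 y
  map_add' F G := pr3_addF M F.1 G.1 y
  map_smul' t F := pr3_smulF M t F.1 y

/-- pairing as a functional -/
noncomputable def L4 (M : Model ℤ_[p] L x) (V4 : Submodule (ZMod p) (W4 → ZMod p)) (y : L) :
    Module.Dual (ZMod p) V4 where
  toFun F := pr4 M F.1 y
  map_add' F G := pr4_addF M F.1 G.1 y
  map_smul' t F := pr4_smulF M t F.1 y

/-- all coordinates -/
noncomputable def Phi (M : Model ℤ_[p] L x) (m l : ℕ) (V2 : Submodule (ZMod p) (W2 → ZMod p))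
    (V3 : Submodule (ZMod p) (W3 → ZMod p)) (V4 : Submodule (ZMod p) (W4 → ZMod p)) :
    L →+ ZMod (p ^ m) × ({a : X // a ≠ 5} → ZMod (p ^ l)) × Module.Dual (ZMod p) V2 ×
      Module.Dual (ZMod p) V3 × Module.Dual (ZMod p) V4 where
  toFun y := (PadicInt.toZModPow m (M.cf1 y 5), fun a => PadicInt.toZModPow l (M.cf1 y a),
    L2 M V2 y, L3 M V3 y, L4 M V4 y)
  map_zero' := by
    refine Prod.ext (by simp) (Prod.ext (by funext a; simp) (Prod.ext ?_ (Prod.ext ?_ ?_)))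
    · ext F; exact pr2_zero M F.1
    · ext F; exact pr3_zero M F.1
    · ext F; exact pr4_zero M F.1
  map_add' y z := by
    refine Prod.ext (by simp) (Prod.ext (by funext a; simp) (Prod.ext ?_ (Prod.ext ?_ ?_)))
    · ext F; exact pr2_add M F.1 y z
    · ext F; exact pr3_add M F.1 y z
    · ext F; exact pr4_add M F.1 y z

theorem toZModPow_eq_zero_iff (m : ℕ) (c : ℤ_[p]) :
    PadicInt.toZModPow m c = 0 ↔ (p : ℤ_[p]) ^ m ∣ c := by
  rw [← RingHom.mem_ker, PadicInt.ker_toZModPow, Ideal.mem_span_singleton]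

theorem ker_Phi (M : Model ℤ_[p] L x) (m l : ℕ) (V2 : Submodule (ZMod p) (W2 → ZMod p))
    (V3 : Submodule (ZMod p) (W3 → ZMod p)) (V4 : Submodule (ZMod p) (W4 → ZMod p)) :
    (Phi M m l V2 V3 V4).ker = (idSub M m l V2 V3 V4).toAddSubgroup := by
  ext y
  rw [AddMonoidHom.mem_ker]
  constructor
  · intro h
    have h1 := congrArg Prod.fst h
    have h2 := congrArg (fun z => z.2.1) h
    have h3 := congrArg (fun z => z.2.2.1) h
    have h4 := congrArg (fun z => z.2.2.2.1) h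
    have h5 := congrArg (fun z => z.2.2.2.2) h
    exact ⟨(toZModPow_eq_zero_iff m _).mp h1,
      fun a ha => (toZModPow_eq_zero_iff l _).mp (congrFun h2 ⟨a, ha⟩),
      fun F hF => LinearMap.congr_fun h3 ⟨F, hF⟩, fun F hF => LinearMap.congr_fun h4 ⟨F, hF⟩,
      fun F hF => LinearMap.congr_fun h5 ⟨F, hF⟩⟩
  · rintro ⟨h1, h2, h3, h4, h5⟩
    refine Prod.ext ((toZModPow_eq_zero_iff m _).mpr h1) (Prod.ext ?_ (Prod.ext ?_ (Prod.ext ?_ ?_)))
    · funext a; exact (toZModPow_eq_zero_iff l _).mpr (h2 a.1 a.2)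
    · ext F; exact h3 F.1 F.2
    · ext F; exact h4 F.1 F.2
    · ext F; exact h5 F.1 F.2

theorem Phi_surj (M : Model ℤ_[p] L x) (m l : ℕ) (V2 : Submodule (ZMod p) (W2 → ZMod p))
    (V3 : Submodule (ZMod p) (W3 → ZMod p)) (V4 : Submodule (ZMod p) (W4 → ZMod p))
    (h5 : 5 < p) (hV2 : V2 ≤ C2 (ZMod p)) (hV3 : V3 ≤ C3 (ZMod p))
    (hV4 : V4 ≤ C4 (ZMod p)) : Function.Surjective (Phi M m l V2 V3 V4) := by
  classical
  rintro ⟨u, v, φ2, φ3, φ4⟩
  obtain ⟨c5, hc5⟩ := ZMod.ringHom_surjective (PadicInt.toZModPow (p := p) m) u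
  choose c hc using fun a => ZMod.ringHom_surjective (PadicInt.toZModPow (p := p) l) (v a)
  obtain ⟨y1, a1, a2, a3, a4⟩ := ex1 M (fun a => if h : a = 5 then c5 else c ⟨a, h⟩)
  obtain ⟨α2, hα2⟩ := dual_dot V2 φ2
  obtain ⟨α3, hα3⟩ := dual_dot V3 φ3
  obtain ⟨α4, hα4⟩ := dual_dot V4 φ4
  obtain ⟨y2, b1, b2, b3, b4⟩ := ex2 M h5 α2
  obtain ⟨y3, c1, c2, c3, c4⟩ := ex3 M h5 α3
  obtain ⟨y4, d1, d2, d3, d4⟩ := ex4 M h5 α4
  refine ⟨y1 + y2 + y3 + y4, ?_⟩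
  have hcf : M.cf1 (y1 + y2 + y3 + y4) = fun a => if h : a = 5 then c5 else c ⟨a, h⟩ := by
    rw [map_add, map_add, map_add, a1, b1, c1, d1]; simp
  refine Prod.ext ?_ (Prod.ext ?_ (Prod.ext ?_ (Prod.ext ?_ ?_)))
  · simp only [Phi, AddMonoidHom.coe_mk, ZeroHom.coe_mk, hcf]
    simpa using hc5
  · funext a
    simp only [Phi, AddMonoidHom.coe_mk, ZeroHom.coe_mk, hcf, dif_neg a.2]
    exact hc a
  · ext F
    show pr2 M F.1 (y1 + y2 + y3 + y4) = φ2 F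
    rw [pr2_add, pr2_add, pr2_add, a2, b2 _ (hV2 F.2), c3, d3, ← hα2 F.1 F.2]; simp
  · ext F
    show pr3 M F.1 (y1 + y2 + y3 + y4) = φ3 F
    rw [pr3_add, pr3_add, pr3_add, a3, b3, c2 _ (hV3 F.2), d4, ← hα3 F.1 F.2]; simp
  · ext F
    show pr4 M F.1 (y1 + y2 + y3 + y4) = φ4 F
    rw [pr4_add, pr4_add, pr4_add, a4, b4, c4, d2 _ (hV4 F.2), ← hα4 F.1 F.2]; simp

theorem card_dual {W : Type} [Finite W] (V : Submodule (ZMod p) (W → ZMod p)) :
    Nat.card (Module.Dual (ZMod p) V) = p ^ Module.finrank (ZMod p) V := by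
  rw [Module.natCard_eq_pow_finrank (K := ZMod p), Subspace.dual_finrank_eq, Nat.card_zmod]

theorem main : S_Cfg1 := by
  intro p hp L _ _ x M m l V2 V3 V4 h5 hm hl hV2 hV3 hV4
  refine ⟨{ idSub M m l V2 V3 V4 with
    lie_mem := fun {z y} hy => lie_mem_of M (idSub M m l V2 V3 V4)
      (lie_x_mem M m l V2 V3 V4 h5 hm hl hV2 hV3 hV4) z y hy }, rfl, ?_⟩
  have hC3 : V3 ≤ C3 (ZMod p) := fun F hF => (hV3 hF).1
  have hC4 : V4 ≤ C4 (ZMod p) := fun F hF => (hV4 hF).1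
  have h1 : Nat.card (L ⧸ (idSub M m l V2 V3 V4)) = Nat.card (L ⧸ (Phi M m l V2 V3 V4).ker) := by
    rw [ker_Phi]; rfl
  have h2 := Nat.card_congr (QuotientAddGroup.quotientKerEquivOfSurjective (Phi M m l V2 V3 V4)
    (Phi_surj M m l V2 V3 V4 h5 hV2 hC3 hC4)).toEquiv
  have h3 : Nat.card {a : X // a ≠ 5} = 5 := by
    rw [Nat.card_eq_fintype_card]; decide
  show Nat.card (L ⧸ (idSub M m l V2 V3 V4)) = _
  rw [h1, h2, Nat.card_prod, Nat.card_prod, Nat.card_prod, Nat.card_prod, Nat.card_fun, h3,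
    card_dual, card_dual, card_dual, Nat.card_zmod, Nat.card_zmod, ← pow_mul]
  ring

end Pool.Agent.W557.UnifCfg1
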