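import Pool.Agent.W557.UnifPair

set_option autoImplicit false

namespace Pool.Agent.W557.UnifCfg2

open Pool.Agent.W373.Unif Pool.Agent.W557.UnifPair

theorem pow_dvd_pow_iff' {p : ℕ} [Fact p.Prime] (m n : ℕ) :
    (p : ℤ_[p]) ^ m ∣ (p : ℤ_[p]) ^ n ↔ m ≤ n := by
  have h0 : (p : ℤ_[p]) ≠ 0 := by exact_mod_cast (Fact.out : p.Prime).ne_zero
  exact pow_dvd_pow_iff h0 PadicInt.prime_p.not_isUnit

theorem main : S_Cfg2 := by
  classical
  intro p hp L _ _ x M m l V2 V3 V4 h5 hV2 hV3 hV4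
  refine ⟨fun n => ?_, fun n => ?_, fun F hF h => ?_, fun F hF h => ?_, fun F hF h => ?_⟩
  · constructor
    · rintro ⟨h1, -⟩
      rw [map_smul, M.cf1_x] at h1
      simp only [Pi.smul_apply, Pi.single_eq_same, smul_eq_mul, mul_one] at h1
      exact (pow_dvd_pow_iff' m n).mp h1
    · intro hmn
      refine ⟨?_, fun a ha => ?_, fun F _ => ?_, fun F _ => ?_, fun F _ => ?_⟩
      · rw [map_smul, M.cf1_x]
        simp only [Pi.smul_apply, Pi.single_eq_same, smul_eq_mul, mul_one]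
        exact (pow_dvd_pow_iff' m n).mpr hmn
      · rw [map_smul, M.cf1_x]
        simp only [Pi.smul_apply, Pi.single_eq_of_ne ha, smul_zero, dvd_zero]
      · rw [pr2_smul, pr2_x, mul_zero]
      · rw [pr3_smul, pr3_x, mul_zero]
      · rw [pr4_smul, pr4_x, mul_zero]
  · constructor
    · rintro ⟨-, h1, -⟩
      have h1 := h1 0 (by decide)
      rw [map_smul, M.cf1_x] at h1
      simp only [Pi.smul_apply, Pi.single_eq_same, smul_eq_mul, mul_one] at h1
      exact (pow_dvd_pow_iff' l n).mp h1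
    · intro hmn
      refine ⟨?_, fun a _ => ?_, fun F _ => ?_, fun F _ => ?_, fun F _ => ?_⟩
      · rw [map_smul, M.cf1_x]
        have : (5 : X) ≠ 0 := by decide
        simp only [Pi.smul_apply, Pi.single_eq_of_ne this, smul_zero, dvd_zero]
      · rw [map_smul, M.cf1_x]
        by_cases h : a = 0
        · subst h
          simp only [Pi.smul_apply, Pi.single_eq_same, smul_eq_mul, mul_one]
          exact (pow_dvd_pow_iff' l n).mpr hmn
        · simp only [Pi.smul_apply, Pi.single_eq_of_ne h, smul_zero, dvd_zero]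
      · rw [pr2_smul, pr2_x, mul_zero]
      · rw [pr3_smul, pr3_x, mul_zero]
      · rw [pr4_smul, pr4_x, mul_zero]
  · by_contra hn
    obtain ⟨α, h1, h2⟩ := sep_dot V2 F hn
    obtain ⟨y, e1, e2, e3, e4⟩ := ex2 M h5 α
    apply h2
    rw [← e2 F hF]
    apply h
    refine ⟨by rw [e1]; simp, fun a _ => by rw [e1]; simp, fun G hG => ?_, fun G _ => e3 G,
      fun G _ => e4 G⟩
    rw [e2 G (hV2 hG), h1 G hG]
  · by_contra hn
    obtain ⟨α, h1, h2⟩ := sep_dot V3 F hn
    obtain ⟨y, e1, e2, e3, e4⟩ := ex3 M h5 α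
    apply h2
    rw [← e2 F hF]
    apply h
    refine ⟨by rw [e1]; simp, fun a _ => by rw [e1]; simp, fun G _ => e3 G, fun G hG => ?_,
      fun G _ => e4 G⟩
    rw [e2 G (hV3 hG), h1 G hG]
  · by_contra hn
    obtain ⟨α, h1, h2⟩ := sep_dot V4 F hn
    obtain ⟨y, e1, e2, e3, e4⟩ := ex4 M h5 α
    apply h2
    rw [← e2 F hF]
    apply h
    refine ⟨by rw [e1]; simp, fun a _ => by rw [e1]; simp, fun G _ => e3 G, fun G _ => e4 G,
      fun G hG => ?_⟩
    rw [e2 G (hV4 hG), h1 G hG]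

end Pool.Agent.W557.UnifCfg2
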