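import Pool.Agent.W373.Unif.Statements

set_option autoImplicit false

namespace Pool.Agent.W557.UnifDSW

open Pool.Agent.W373.Unif

theorem sum_single {R L W : Type} [CommRing R] [AddCommGroup L] [Module R L] [Fintype W]
    [DecidableEq W] (v : W) (g : W → L) : ∑ w, (Pi.single v (1 : R) : W → R) w • g w = g v := by
  simp [Pi.single_apply, ite_smul]

theorem id3 {L : Type} [LieRing L] (a b c : L) :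
    ⁅a, ⁅b, c⁆⁆ - ⁅a, ⁅c, b⁆⁆ - ⁅b, ⁅c, a⁆⁆ + ⁅c, ⁅b, a⁆⁆ = (3 : ℕ) • ⁅a, ⁅b, c⁆⁆ := by
  have h1 : ⁅a, ⁅c, b⁆⁆ = - ⁅a, ⁅b, c⁆⁆ := by rw [← lie_skew b c, lie_neg, neg_neg]
  have h2 : ⁅b, ⁅c, a⁆⁆ = ⁅⁅b, c⁆, a⁆ + ⁅c, ⁅b, a⁆⁆ := leibniz_lie b c a
  have h3 : ⁅⁅b, c⁆, a⁆ = - ⁅a, ⁅b, c⁆⁆ := (lie_skew _ _).symm
  rw [h1, h2, h3]
  simp only [succ_nsmul, zero_nsmul]
  abel

theorem id4 {L : Type} [LieRing L] (a b c d : L) :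
    ⁅a, ⁅b, ⁅c, d⁆⁆⁆ - ⁅a, ⁅b, ⁅d, c⁆⁆⁆ - ⁅a, ⁅c, ⁅d, b⁆⁆⁆ + ⁅a, ⁅d, ⁅c, b⁆⁆⁆
      - ⁅b, ⁅c, ⁅d, a⁆⁆⁆ + ⁅b, ⁅d, ⁅c, a⁆⁆⁆ + ⁅c, ⁅d, ⁅b, a⁆⁆⁆ - ⁅d, ⁅c, ⁅b, a⁆⁆⁆ =
      (4 : ℕ) • ⁅a, ⁅b, ⁅c, d⁆⁆⁆ := by
  have h1 : ⁅a, ⁅b, ⁅c, d⁆⁆⁆ - ⁅a, ⁅b, ⁅d, c⁆⁆⁆ - ⁅a, ⁅c, ⁅d, b⁆⁆⁆ + ⁅a, ⁅d, ⁅c, b⁆⁆⁆ =
      (3 : ℕ) • ⁅a, ⁅b, ⁅c, d⁆⁆⁆ := by
    rw [← lie_nsmul, ← id3 b c d]
    simp only [lie_add, lie_sub]
  have h2 : ⁅b, ⁅c, ⁅d, a⁆⁆⁆ = ⁅b, ⁅⁅c, d⁆, a⁆⁆ + ⁅b, ⁅d, ⁅c, a⁆⁆⁆ := by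
    rw [leibniz_lie c d a, lie_add]
  have h3 : ⁅c, ⁅d, ⁅b, a⁆⁆⁆ = ⁅⁅c, d⁆, ⁅b, a⁆⁆ + ⁅d, ⁅c, ⁅b, a⁆⁆⁆ := leibniz_lie c d _
  have h4 : ⁅⁅c, d⁆, ⁅b, a⁆⁆ = ⁅⁅⁅c, d⁆, b⁆, a⁆ + ⁅b, ⁅⁅c, d⁆, a⁆⁆ := leibniz_lie _ _ _
  have h5 : ⁅⁅⁅c, d⁆, b⁆, a⁆ = ⁅a, ⁅b, ⁅c, d⁆⁆⁆ := by
    rw [← lie_skew a, ← lie_skew b ⁅c, d⁆, neg_lie, neg_neg]
  rw [h1, h2, h3, h4, h5]
  simp only [succ_nsmul, zero_nsmul]
  abel

theorem main : S_Dsw := by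
  intro R L _ _ _ x M y
  have h := M.span y
  induction h using Submodule.span_induction with
  | mem y hy =>
    rcases hy with ((⟨a, rfl⟩ | ⟨w, rfl⟩) | ⟨w, rfl⟩) | ⟨w, rfl⟩
    · rw [M.cf1_x, M.cf2_x, M.cf3_x, M.cf4_x]
      simp only [Pi.zero_apply, zero_smul, Finset.sum_const_zero, smul_zero, add_zero]
      rw [sum_single]
    · obtain ⟨a, b⟩ := w
      rw [M.cf1_b2, M.cf2_b2, M.cf3_b2, M.cf4_b2]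
      simp only [Pi.zero_apply, zero_smul, Finset.sum_const_zero, smul_zero, add_zero, zero_add,
        Pi.sub_apply, sub_smul, Finset.sum_sub_distrib]
      rw [sum_single, sum_single]
      have h1 : b2 x (b, a) = - b2 x (a, b) := by
        simp only [b2]; rw [lie_skew]
      rw [h1, sub_neg_eq_add, ← two_smul R, smul_smul]
      norm_num
    · obtain ⟨a, b, c⟩ := w
      rw [M.cf1_b3, M.cf2_b3, M.cf3_b3, M.cf4_b3]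
      simp only [Pi.zero_apply, zero_smul, Finset.sum_const_zero, smul_zero, add_zero, zero_add,
        Pi.sub_apply, Pi.add_apply, sub_smul, add_smul, Finset.sum_sub_distrib,
        Finset.sum_add_distrib]
      rw [sum_single, sum_single, sum_single, sum_single]
      simp only [b3, b2]
      rw [id3 (x a) (x b) (x c), ← Nat.cast_smul_eq_nsmul R, smul_smul]
      norm_num
    · obtain ⟨a, b, c, d⟩ := w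
      rw [M.cf1_b4, M.cf2_b4, M.cf3_b4, M.cf4_b4]
      simp only [Pi.zero_apply, zero_smul, Finset.sum_const_zero, smul_zero, add_zero, zero_add,
        Pi.sub_apply, Pi.add_apply, sub_smul, add_smul, Finset.sum_sub_distrib,
        Finset.sum_add_distrib]
      simp only [sum_single]
      simp only [b4, b3, b2]
      rw [id4 (x a) (x b) (x c) (x d), ← Nat.cast_smul_eq_nsmul R, smul_smul]
      norm_num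
  | zero => simp
  | add y z _ _ hy hz =>
    rw [smul_add, hy, hz]
    simp only [map_add, Pi.add_apply, add_smul, Finset.sum_add_distrib, smul_add]
    abel
  | smul t y _ hy =>
    rw [smul_comm, hy]
    simp only [map_smul, Pi.smul_apply, smul_eq_mul, mul_smul, ← Finset.smul_sum, smul_add]
    rw [smul_comm t (12:R), smul_comm t (6:R), smul_comm t (4:R), smul_comm t (3:R)]

end Pool.Agent.W557.UnifDSW
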