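import Pool.Agent.W557.UnifCfg6a
import Pool.Agent.W557.UnifDSW

/-!
# Numerics for index `p ^ 26`
-/

set_option autoImplicit false

namespace Pool.Agent.W557.UnifCfg6

open Pool.Agent.W373.Unif Pool.Agent.W557.UnifProj Pool.Agent.W557.UnifPair

variable {p : ℕ} [hp : Fact p.Prime] {L : Type} [LieRing L] [LieAlgebra ℤ_[p] L] {x : X → L}

theorem unit12 (h5 : 5 < p) : ∃ u : ℤ_[p], u * 12 = 1 := by
  have h12 : IsUnit (12 : ℤ_[p]) := by
    have h1 : (12 : ℤ_[p]) = ((12 : ℕ) : ℤ_[p]) := by norm_num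
    rw [h1, PadicInt.isUnit_iff, PadicInt.norm_natCast_eq_one_iff]
    have h2 : p.Coprime 12 := by
      rw [hp.out.coprime_iff_not_dvd]
      intro h
      have h3 : p ∣ 2 ^ 2 * 3 := h
      rcases (hp.out.dvd_mul).mp h3 with h4 | h4
      · have := Nat.le_of_dvd (by norm_num) (hp.out.dvd_of_dvd_pow h4); omega
      · have := Nat.le_of_dvd (by norm_num) h4; omega
    exact h2
  exact h12.exists_left_inv

/-- multiples of an element in an ideal -/
theorem dvd_of_smul_mem (I : LieIdeal ℤ_[p] L) (z : L) (m : ℕ)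
    (hm : ∀ n : ℕ, (p : ℤ_[p]) ^ n • z ∈ I ↔ m ≤ n) (t : ℤ_[p]) (h : t • z ∈ I) :
    (p : ℤ_[p]) ^ m ∣ t := by
  by_cases ht : t = 0
  · subst ht; exact dvd_zero _
  · have h1 := PadicInt.unitCoeff_spec ht
    have h3 : (p : ℤ_[p]) ^ t.valuation =
        ((PadicInt.unitCoeff ht)⁻¹ : ℤ_[p]ˣ) * t := by
      calc (p : ℤ_[p]) ^ t.valuation = ((PadicInt.unitCoeff ht)⁻¹ : ℤ_[p]ˣ) *
            ((PadicInt.unitCoeff ht : ℤ_[p]) * (p : ℤ_[p]) ^ t.valuation) := by
            rw [← mul_assoc, Units.inv_mul, one_mul]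
        _ = _ := by rw [← h1]
    have h2 : (p : ℤ_[p]) ^ t.valuation • z ∈ I := by
      rw [h3, mul_smul]
      exact I.smul_mem _ h
    have h4 := (hm _).mp h2
    rw [h1]
    exact Dvd.dvd.mul_left (pow_dvd_pow _ h4) _

theorem rot_to_zero : ∀ a : X, a ≠ 5 → ∃ k : Fin 5, rot^[(k : ℕ)] a = 0 := by decide +kernel

theorem rot_from_zero : ∀ a : X, a ≠ 5 → ∃ k : Fin 5, rot^[(k : ℕ)] 0 = a := by decide +kernel

theorem rho_iter_mem (M : Model ℤ_[p] L x) (I : LieIdeal ℤ_[p] L) (hI : RotSt x I) (k : ℕ)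
    (y : L) (hy : y ∈ I) : (rho M)^[k] y ∈ I := by
  induction k generalizing y with
  | zero => exact hy
  | succ k ih => rw [Function.iterate_succ_apply]; exact ih _ (rho_mem M I hI y hy)

theorem rho_iter_smul (M : Model ℤ_[p] L x) (k : ℕ) (t : ℤ_[p]) (y : L) :
    (rho M)^[k] (t • y) = t • (rho M)^[k] y := by
  induction k generalizing y with
  | zero => rfl
  | succ k ih => rw [Function.iterate_succ_apply, map_smul, ih, Function.iterate_succ_apply]

/-- the letter component -/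
theorem E_letter {u : ℤ_[p]} (M : Model ℤ_[p] L x) (hu : u * 12 = 1) (a : X) (y : L) :
    E M (fun N => N = wt a) u y = M.cf1 y a • x a := by
  have hD : S_Dsw := UnifDSW.main
  have k1 : ∀ a b : X, wt b = wt a ↔ b = a := by decide +kernel
  have k2 : ∀ (a : X) (w : W2), wt2 w ≠ wt a := by decide +kernel
  have k3 : ∀ (a : X) (w : W3), wt3 w ≠ wt a := by decide +kernel
  have k4 : ∀ (a : X) (w : W4), wt4 w ≠ wt a := by decide +kernel
  refine indR (P := fun y => E M (fun N => N = wt a) u y = M.cf1 y a • x a) M (fun b => ?_)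
    (fun w => ?_) (fun w => ?_) (fun w => ?_) (by simp) (fun y z hy hz => ?_) (fun t y hy => ?_) y
  · rw [E_x M hD hu, M.cf1_x]
    by_cases h : b = a
    · subst h; simp
    · rw [if_neg (fun h' => h ((k1 a b).mp h')), Pi.single_eq_of_ne (fun h' => h h'.symm),
        zero_smul]
  · rw [E_b2 M hD hu, M.cf1_b2, if_neg (k2 a w)]; simp
  · rw [E_b3 M hD hu, M.cf1_b3, if_neg (k3 a w)]; simp
  · rw [E_b4 M hD hu, M.cf1_b4, if_neg (k4 a w)]; simp
  · rw [map_add, hy, hz, map_add, Pi.add_apply, add_smul]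
  · rw [map_smul, hy, map_smul, Pi.smul_apply, smul_eq_mul, mul_smul]

theorem main : S_Cfg1 → S_Cfg4 → S_Cfg6a → S_Cfg6b → S_Cfg6 := by
  intro hC1 hC4 hC6a hC6b p hp L _ _ x M I hI h5
  have hb := hC6b p L x M 26 I hI h5
  obtain ⟨hMG, hRot, hcard, hlcs⟩ := hI
  obtain ⟨u, hu⟩ := unit12 (p := p) h5
  -- `p ^ 26` kills the quotient
  have h26 : ∀ y : L, (p : ℤ_[p]) ^ 26 • y ∈ I := by
    intro y
    have h1 : Nat.card (L ⧸ (I : Submodule ℤ_[p] L)) •
        (Submodule.Quotient.mk y : L ⧸ (I : Submodule ℤ_[p] L)) = 0 := card_nsmul_eq_zero'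
    rw [hcard] at h1
    have h2 : (Submodule.Quotient.mk ((p : ℤ_[p]) ^ 26 • y) : L ⧸ (I : Submodule ℤ_[p] L)) = 0 := by
      rw [← h1]
      have h3 : (p : ℤ_[p]) ^ 26 • y = (p ^ 26) • y := by
        rw [← Nat.cast_smul_eq_nsmul ℤ_[p]]; push_cast; rfl
      rw [h3]
      rfl
    exact (Submodule.Quotient.mk_eq_zero _).mp h2
  -- the exponents
  have hex : ∀ z : L, ∃ m : ℕ, ∀ n : ℕ, (p : ℤ_[p]) ^ n • z ∈ I ↔ m ≤ n := by
    classical
    intro z
    have h1 : ∃ n : ℕ, (p : ℤ_[p]) ^ n • z ∈ I := ⟨26, h26 z⟩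
    refine ⟨Nat.find h1, fun n => ⟨fun h => Nat.find_min' h1 h, fun h => ?_⟩⟩
    obtain ⟨k, rfl⟩ := Nat.exists_eq_add_of_le h
    rw [pow_add, mul_comm, mul_smul]
    exact I.smul_mem _ (Nat.find_spec h1)
  obtain ⟨m, hm⟩ := hex (x 5)
  obtain ⟨l, hl⟩ := hex (x 0)
  obtain ⟨hb2, hb3, hb4, hx0⟩ := hb
  have hm1 := hC6a p L x M I m 26 h5 hMG hRot hm hcard
  have hl1 : 1 ≤ l := by
    by_contra h
    have h0 : l = 0 := by omega
    apply hx0
    have := (hl 0).mpr (by omega)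
    simpa using this
  have hm2 : m % 5 = 1 := by
    have h := hm1
    unfold Nat.ModEq at h
    omega
  obtain ⟨hpair, hle4, hT4, hR4⟩ := hC4 p L x M I h5 hMG hRot
  obtain ⟨I', hI', hcard'⟩ := hC1 p L x M m l (VI2 M I) (VI3 M I) (VI4 M I) h5 (by omega) hl1
    hpair.le2 hpair.le3 hle4
  have hletter : ∀ y ∈ I, ∀ a : X, M.cf1 y a • x a ∈ I := by
    intro y hy a
    rw [← E_letter M hu a y]
    exact E_mem M UnifDSW.main hu I hMG y hy
  have hle : ∀ y ∈ I, y ∈ I' := by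
    intro y hy
    have h1 : y ∈ idSet M m l (VI2 M I) (VI3 M I) (VI4 M I) := by
      refine ⟨dvd_of_smul_mem I (x 5) m hm _ (hletter y hy 5), fun a ha => ?_,
        fun F hF => hF.2 y hy, fun F hF => hF.2 y hy, fun F hF => hF.2 y hy⟩
      obtain ⟨k, hk⟩ := rot_to_zero a ha
      have h2 := rho_iter_mem M I hRot k _ (hletter y hy a)
      rw [rho_iter_smul, rho_iter_x, hk] at h2
      exact dvd_of_smul_mem I (x 0) l hl _ h2
    rw [← hI'] at h1
    exact h1
  have hrel := AddSubgroup.relIndex_mul_index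
    (H := (I : Submodule ℤ_[p] L).toAddSubgroup) (K := (I' : Submodule ℤ_[p] L).toAddSubgroup)
    (fun y hy => hle y hy)
  have hi1 : (I : Submodule ℤ_[p] L).toAddSubgroup.index = p ^ 26 := hcard
  have hi2 : (I' : Submodule ℤ_[p] L).toAddSubgroup.index =
      p ^ (m + 5 * l + Module.finrank (ZMod p) (VI2 M I) + Module.finrank (ZMod p) (VI3 M I) +
        Module.finrank (ZMod p) (VI4 M I)) := hcard'
  rw [hi1, hi2] at hrel
  have hdvd : p ^ (m + 5 * l + Module.finrank (ZMod p) (VI2 M I) +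
      Module.finrank (ZMod p) (VI3 M I) + Module.finrank (ZMod p) (VI4 M I)) ∣ p ^ 26 :=
    ⟨_, by rw [← hrel]; ring⟩
  have hexp := (Nat.pow_dvd_pow_iff_le_right hp.out.one_lt).mp hdvd
  refine ⟨m, l, hm, hl, ?_, by omega⟩
  rintro ⟨a, b⟩
  by_cases hl2 : l = 1
  · -- letters
    have hxa : ∀ a : X, a ≠ 5 → (p : ℤ_[p]) • x a ∈ I := by
      intro a ha
      obtain ⟨k, hk⟩ := rot_from_zero a ha
      have h1 : (p : ℤ_[p]) • x 0 ∈ I := by
        have := (hl 1).mpr (by omega)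
        simpa using this
      have h2 := rho_iter_mem M I hRot k _ h1
      rw [rho_iter_smul, rho_iter_x, hk] at h2
      exact h2
    by_cases hb5 : b = 5
    · by_cases ha5 : a = 5
      · subst ha5; subst hb5
        have : b2 x (5, 5) = 0 := lie_self _
        rw [this, smul_zero]
        exact I.zero_mem
      · have h1 : ⁅x b, (p : ℤ_[p]) • x a⁆ ∈ I := lie_mem_right ℤ_[p] L I _ _ (hxa a ha5)
        have h2 : (p : ℤ_[p]) • b2 x (a, b) = -⁅x b, (p : ℤ_[p]) • x a⁆ := by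
          show (p : ℤ_[p]) • ⁅x a, x b⁆ = _
          rw [lie_smul, ← smul_neg, lie_skew]
        rw [h2]
        exact I.neg_mem h1
    · have h1 : ⁅x a, (p : ℤ_[p]) • x b⁆ ∈ I := lie_mem_right ℤ_[p] L I _ _ (hxa b hb5)
      rw [lie_smul] at h1
      exact h1
  · have hl3 : l = 2 := by omega
    have heq : m + 5 * l + Module.finrank (ZMod p) (VI2 M I) +
        Module.finrank (ZMod p) (VI3 M I) + Module.finrank (ZMod p) (VI4 M I) = 26 := by omega
    rw [heq] at hrel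
    have hone : (I : Submodule ℤ_[p] L).toAddSubgroup.relIndex
        (I' : Submodule ℤ_[p] L).toAddSubgroup = 1 := by
      have h0 : 0 < p ^ 26 := pow_pos hp.out.pos _
      exact Nat.eq_of_mul_eq_mul_right h0 (by rw [hrel, one_mul])
    rw [AddSubgroup.relIndex_eq_one] at hone
    have h1 : (p : ℤ_[p]) • b2 x (a, b) ∈ idSet M m l (VI2 M I) (VI3 M I) (VI4 M I) := by
      refine ⟨?_, fun c _ => ?_, fun F _ => ?_, fun F _ => ?_, fun F _ => ?_⟩
      · rw [map_smul, M.cf1_b2]; simp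
      · rw [map_smul, M.cf1_b2]; simp
      · rw [pr2_smul, red_p, zero_mul]
      · rw [pr3_smul, red_p, zero_mul]
      · rw [pr4_smul, red_p, zero_mul]
    rw [← hI'] at h1
    exact hone h1

end Pool.Agent.W557.UnifCfg6
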