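import Pool.Agent.W373.Unif.Statements

/-!
# Pairings with words: values, derivations, existence of elements
-/

set_option autoImplicit false

namespace Pool.Agent.W557.UnifPair

open Pool.Agent.W373.Unif

variable {p : ℕ} [Fact p.Prime] {L : Type} [LieRing L] [LieAlgebra ℤ_[p] L] {x : X → L}

/-- reduction -/
noncomputable abbrev red (p : ℕ) [Fact p.Prime] : ℤ_[p] →+* ZMod p := PadicInt.toZMod

theorem red_surj : Function.Surjective (red p) := ZMod.ringHom_surjective _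

theorem red_p : red p (p : ℤ_[p]) = 0 := by simp

theorem red_of_dvd {t : ℤ_[p]} {m : ℕ} (hm : 1 ≤ m) (h : (p : ℤ_[p]) ^ m ∣ t) : red p t = 0 := by
  obtain ⟨c, rfl⟩ := h
  rw [map_mul, map_pow, red_p, zero_pow (by omega), zero_mul]

/-! ## linearity -/

variable (M : Model ℤ_[p] L x)

theorem pr2_add (F : W2 → ZMod p) (y z : L) : pr2 M F (y + z) = pr2 M F y + pr2 M F z := by
  simp [pr2, add_mul, Finset.sum_add_distrib]
theorem pr3_add (F : W3 → ZMod p) (y z : L) : pr3 M F (y + z) = pr3 M F y + pr3 M F z := by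
  simp [pr3, add_mul, Finset.sum_add_distrib]
theorem pr4_add (F : W4 → ZMod p) (y z : L) : pr4 M F (y + z) = pr4 M F y + pr4 M F z := by
  simp [pr4, add_mul, Finset.sum_add_distrib]

theorem pr2_smul (F : W2 → ZMod p) (t : ℤ_[p]) (y : L) :
    pr2 M F (t • y) = red p t * pr2 M F y := by
  simp [pr2, Finset.mul_sum, mul_assoc]
theorem pr3_smul (F : W3 → ZMod p) (t : ℤ_[p]) (y : L) :
    pr3 M F (t • y) = red p t * pr3 M F y := by
  simp [pr3, Finset.mul_sum, mul_assoc]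
theorem pr4_smul (F : W4 → ZMod p) (t : ℤ_[p]) (y : L) :
    pr4 M F (t • y) = red p t * pr4 M F y := by
  simp [pr4, Finset.mul_sum, mul_assoc]

theorem pr2_zero (F : W2 → ZMod p) : pr2 M F 0 = 0 := by simp [pr2]
theorem pr3_zero (F : W3 → ZMod p) : pr3 M F 0 = 0 := by simp [pr3]
theorem pr4_zero (F : W4 → ZMod p) : pr4 M F 0 = 0 := by simp [pr4]

theorem pr2_sum {ι : Type} (F : W2 → ZMod p) (s : Finset ι) (y : ι → L) :
    pr2 M F (∑ i ∈ s, y i) = ∑ i ∈ s, pr2 M F (y i) := by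
  classical
  induction s using Finset.induction_on with
  | empty => simp [pr2_zero]
  | insert a s ha ih => rw [Finset.sum_insert ha, pr2_add, ih, Finset.sum_insert ha]
theorem pr3_sum {ι : Type} (F : W3 → ZMod p) (s : Finset ι) (y : ι → L) :
    pr3 M F (∑ i ∈ s, y i) = ∑ i ∈ s, pr3 M F (y i) := by
  classical
  induction s using Finset.induction_on with
  | empty => simp [pr3_zero]
  | insert a s ha ih => rw [Finset.sum_insert ha, pr3_add, ih, Finset.sum_insert ha]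
theorem pr4_sum {ι : Type} (F : W4 → ZMod p) (s : Finset ι) (y : ι → L) :
    pr4 M F (∑ i ∈ s, y i) = ∑ i ∈ s, pr4 M F (y i) := by
  classical
  induction s using Finset.induction_on with
  | empty => simp [pr4_zero]
  | insert a s ha ih => rw [Finset.sum_insert ha, pr4_add, ih, Finset.sum_insert ha]

/-! ## values on words -/

theorem pair_single {W : Type} [Fintype W] [DecidableEq W] (v : W) (F : W → ZMod p) :
    ∑ w, red p ((Pi.single v (1 : ℤ_[p]) : W → ℤ_[p]) w) * F w = F v := by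
  have : ∀ w, red p ((Pi.single v (1 : ℤ_[p]) : W → ℤ_[p]) w) * F w = if w = v then F v else 0 := by
    intro w
    by_cases h : w = v
    · subst h; simp
    · simp [Pi.single_apply, h]
  rw [Finset.sum_congr rfl fun w _ => this w]
  simp

theorem pr2_x (F : W2 → ZMod p) (a : X) : pr2 M F (x a) = 0 := by simp [pr2, M.cf2_x]
theorem pr3_x (F : W3 → ZMod p) (a : X) : pr3 M F (x a) = 0 := by simp [pr3, M.cf3_x]
theorem pr4_x (F : W4 → ZMod p) (a : X) : pr4 M F (x a) = 0 := by simp [pr4, M.cf4_x]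
theorem pr3_b2 (F : W3 → ZMod p) (w : W2) : pr3 M F (b2 x w) = 0 := by simp [pr3, M.cf3_b2]
theorem pr4_b2 (F : W4 → ZMod p) (w : W2) : pr4 M F (b2 x w) = 0 := by simp [pr4, M.cf4_b2]
theorem pr2_b3 (F : W2 → ZMod p) (w : W3) : pr2 M F (b3 x w) = 0 := by simp [pr2, M.cf2_b3]
theorem pr4_b3 (F : W4 → ZMod p) (w : W3) : pr4 M F (b3 x w) = 0 := by simp [pr4, M.cf4_b3]
theorem pr2_b4 (F : W2 → ZMod p) (w : W4) : pr2 M F (b4 x w) = 0 := by simp [pr2, M.cf2_b4]
theorem pr3_b4 (F : W3 → ZMod p) (w : W4) : pr3 M F (b4 x w) = 0 := by simp [pr3, M.cf3_b4]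

theorem pr2_b2_raw (F : W2 → ZMod p) (a b : X) : pr2 M F (b2 x (a, b)) = F (a, b) - F (b, a) := by
  rw [pr2, M.cf2_b2]
  simp only [Pi.sub_apply, map_sub, sub_mul, Finset.sum_sub_distrib]
  rw [pair_single, pair_single]

theorem pr3_b3_raw (F : W3 → ZMod p) (a b c : X) : pr3 M F (b3 x (a, b, c)) =
    F (a, b, c) - F (a, c, b) - F (b, c, a) + F (c, b, a) := by
  rw [pr3, M.cf3_b3]
  simp only [Pi.sub_apply, Pi.add_apply, map_sub, map_add, sub_mul, add_mul,
    Finset.sum_sub_distrib, Finset.sum_add_distrib]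
  simp only [pair_single]

theorem pr4_b4_raw (F : W4 → ZMod p) (a b c d : X) : pr4 M F (b4 x (a, b, c, d)) =
    F (a, b, c, d) - F (a, b, d, c) - F (a, c, d, b) + F (a, d, c, b)
    - F (b, c, d, a) + F (b, d, c, a) + F (c, d, b, a) - F (d, c, b, a) := by
  rw [pr4, M.cf4_b4]
  simp only [Pi.sub_apply, Pi.add_apply, map_sub, map_add, sub_mul, add_mul,
    Finset.sum_sub_distrib, Finset.sum_add_distrib]
  simp only [pair_single]

theorem pr2_b2 {F : W2 → ZMod p} (hF : F ∈ C2 (ZMod p)) (w : W2) :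
    pr2 M F (b2 x w) = 2 * F w := by
  obtain ⟨a, b⟩ := w
  rw [pr2_b2_raw]
  have := hF a b
  linear_combination -this

theorem pr3_b3 {F : W3 → ZMod p} (hF : F ∈ C3 (ZMod p)) (w : W3) :
    pr3 M F (b3 x w) = 3 * F w := by
  obtain ⟨a, b, c⟩ := w
  rw [pr3_b3_raw]
  have h1 := hF.1 a b c
  have h2 := hF.2 a b c
  have h3 := hF.1 c a b
  linear_combination -h1 - h2 + h3

theorem pr4_b4 {F : W4 → ZMod p} (hF : F ∈ C4 (ZMod p)) (w : W4) :
    pr4 M F (b4 x w) = 4 * F w := by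
  obtain ⟨a, b, c, d⟩ := w
  rw [pr4_b4_raw]
  have h1 := (hF.1 a).1 b c d
  have h2 := (hF.1 a).2 b c d
  have h3 := (hF.1 a).1 d b c
  have h4 := (hF.1 b).1 c d a
  have h5 := (hF.1 b).2 c d a
  have h6 := (hF.1 b).1 d c a
  have h7 := (hF.1 c).1 d b a
  have h8 := (hF.1 d).1 c b a
  have h9 := hF.2 a b c d
  simp only at h1 h2 h3 h4 h5 h6 h7 h8
  linear_combination -h1 - h2 + h3 - h5 + h6 + h7 - h8 - h9

/-! ## extensionality and brackets -/

/-- induction over `L` -/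
theorem ind {P : L → Prop} (M : Model ℤ_[p] L x) (h1 : ∀ a, P (x a)) (h2 : ∀ w, P (b2 x w))
    (h3 : ∀ w, P (b3 x w)) (h4 : ∀ w, P (b4 x w)) (h0 : P 0)
    (hadd : ∀ y z, P y → P z → P (y + z)) (hs : ∀ (t : ℤ_[p]) y, P y → P (t • y)) (y : L) :
    P y := by
  have h := M.span y
  induction h using Submodule.span_induction with
  | mem y hy =>
    rcases hy with ((⟨a, rfl⟩ | ⟨w, rfl⟩) | ⟨w, rfl⟩) | ⟨w, rfl⟩
    · exact h1 a
    · exact h2 w
    · exact h3 w
    · exact h4 w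
  | zero => exact h0
  | add y z _ _ hy hz => exact hadd y z hy hz
  | smul t y _ hy => exact hs t y hy

theorem cf1_lie (a : X) (y : L) : M.cf1 ⁅x a, y⁆ = 0 := by
  refine ind (P := fun y => M.cf1 ⁅x a, y⁆ = 0) M (fun b => M.cf1_b2 (a, b)) (fun w => M.cf1_b3 (a, w))
    (fun w => M.cf1_b4 (a, w)) (fun w => by rw [M.nil, map_zero]) (by simp) (fun y z hy hz => ?_)
    (fun t y hy => ?_) y
  · rw [lie_add, map_add, hy, hz, add_zero]
  · rw [lie_smul, map_smul, hy, smul_zero]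

theorem pr2_lie {F : W2 → ZMod p} (hF : F ∈ C2 (ZMod p)) (a : X) (y : L) :
    pr2 M F ⁅x a, y⁆ = 2 * ∑ b, F (a, b) * red p (M.cf1 y b) := by
  refine ind (P := fun y => pr2 M F ⁅x a, y⁆ = 2 * ∑ b, F (a, b) * red p (M.cf1 y b)) M
    (fun b => ?_) (fun w => ?_) (fun w => ?_) (fun w => ?_) (by simp [pr2_zero])
    (fun y z hy hz => ?_) (fun t y hy => ?_) y
  · have h1 : pr2 M F ⁅x a, x b⁆ = 2 * F (a, b) := pr2_b2 M hF (a, b)
    rw [h1, M.cf1_x]
    congr 1
    rw [Finset.sum_congr rfl fun c _ => mul_comm _ _]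
    exact (pair_single b (fun c => F (a, c))).symm
  · have h1 : pr2 M F ⁅x a, b2 x w⁆ = 0 := pr2_b3 M F (a, w)
    rw [h1, M.cf1_b2]; simp
  · have h1 : pr2 M F ⁅x a, b3 x w⁆ = 0 := pr2_b4 M F (a, w)
    rw [h1, M.cf1_b3]; simp
  · rw [M.nil, pr2_zero, M.cf1_b4]; simp
  · rw [lie_add, pr2_add, hy, hz, map_add]
    simp only [Pi.add_apply, map_add, mul_add, Finset.sum_add_distrib]
  · rw [lie_smul, pr2_smul, hy, map_smul]
    simp only [Pi.smul_apply, smul_eq_mul, map_mul, Finset.mul_sum]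
    exact Finset.sum_congr rfl fun b _ => by ring

theorem pr3_lie {F : W3 → ZMod p} (hF : F ∈ C3 (ZMod p)) (a : X)
    (hF2 : (fun w : W2 => F (a, w)) ∈ C2 (ZMod p)) (y : L) :
    2 * pr3 M F ⁅x a, y⁆ = 3 * pr2 M (fun w => F (a, w)) y := by
  refine ind (P := fun y => 2 * pr3 M F ⁅x a, y⁆ = 3 * pr2 M (fun w => F (a, w)) y) M
    (fun b => ?_) (fun w => ?_) (fun w => ?_) (fun w => ?_) (by simp [pr2_zero, pr3_zero])
    (fun y z hy hz => ?_) (fun t y hy => ?_) y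
  · have h1 : pr3 M F ⁅x a, x b⁆ = 0 := pr3_b2 M F (a, b)
    rw [h1, pr2_x]; ring
  · have h1 : pr3 M F ⁅x a, b2 x w⁆ = 3 * F (a, w) := pr3_b3 M hF (a, w)
    rw [h1, pr2_b2 M hF2]; ring
  · have h1 : pr3 M F ⁅x a, b3 x w⁆ = 0 := pr3_b4 M F (a, w)
    rw [h1, pr2_b3]; ring
  · rw [M.nil, pr3_zero, pr2_b4]; ring
  · rw [lie_add, pr3_add, pr2_add, mul_add, mul_add, hy, hz]
  · rw [lie_smul, pr3_smul, pr2_smul]
    linear_combination red p t * hy

theorem pr4_lie {F : W4 → ZMod p} (hF : F ∈ C4 (ZMod p)) (a : X) (y : L) :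
    3 * pr4 M F ⁅x a, y⁆ = 4 * pr3 M (fun w => F (a, w)) y := by
  refine ind (P := fun y => 3 * pr4 M F ⁅x a, y⁆ = 4 * pr3 M (fun w => F (a, w)) y) M
    (fun b => ?_) (fun w => ?_) (fun w => ?_) (fun w => ?_) (by simp [pr3_zero, pr4_zero])
    (fun y z hy hz => ?_) (fun t y hy => ?_) y
  · have h1 : pr4 M F ⁅x a, x b⁆ = 0 := pr4_b2 M F (a, b)
    rw [h1, pr3_x]; ring
  · have h1 : pr4 M F ⁅x a, b2 x w⁆ = 0 := pr4_b3 M F (a, w)
    rw [h1, pr3_b2]; ring
  · have h1 : pr4 M F ⁅x a, b3 x w⁆ = 4 * F (a, w) := pr4_b4 M hF (a, w)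
    rw [h1, pr3_b3 M (hF.1 a)]; ring
  · rw [M.nil, pr4_zero, pr3_b4]; ring
  · rw [lie_add, pr4_add, pr3_add, mul_add, mul_add, hy, hz]
  · rw [lie_smul, pr4_smul, pr3_smul]
    linear_combination red p t * hy

/-- derivatives of elements of `C3` are in `C2` -/
theorem deriv_C2 {k : Type} [CommRing k] {F : W3 → k} (hF : F ∈ C3 k) (a : X) :
    (fun w : W2 => F (a, w)) ∈ C2 k := fun b c => hF.1 a b c

/-! ## invertible numbers -/

theorem ne_of_lt (hp : 5 < p) (n : ℕ) (h0 : 0 < n) (hn : n < 6) : ((n : ℕ) : ZMod p) ≠ 0 := by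
  intro h
  rw [ZMod.natCast_eq_zero_iff] at h
  have := Nat.le_of_dvd h0 h
  omega

theorem two_ne (hp : 5 < p) : (2 : ZMod p) ≠ 0 := by
  have := ne_of_lt (p := p) hp 2 (by norm_num) (by norm_num)
  exact_mod_cast this
theorem three_ne (hp : 5 < p) : (3 : ZMod p) ≠ 0 := by
  have := ne_of_lt (p := p) hp 3 (by norm_num) (by norm_num)
  exact_mod_cast this
theorem four_ne (hp : 5 < p) : (4 : ZMod p) ≠ 0 := by
  have := ne_of_lt (p := p) hp 4 (by norm_num) (by norm_num)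
  exact_mod_cast this

/-! ## elements with prescribed pairings -/

theorem ex1 (c : X → ℤ_[p]) : ∃ y : L, M.cf1 y = c ∧ (∀ F, pr2 M F y = 0) ∧
    (∀ F, pr3 M F y = 0) ∧ (∀ F, pr4 M F y = 0) := by
  refine ⟨∑ a, c a • x a, ?_, fun F => ?_, fun F => ?_, fun F => ?_⟩
  · rw [map_sum]
    funext b
    simp [M.cf1_x, Finset.sum_apply, Pi.single_apply]
  · rw [pr2_sum]; exact Finset.sum_eq_zero fun a _ => by rw [pr2_smul, pr2_x, mul_zero]
  · rw [pr3_sum]; exact Finset.sum_eq_zero fun a _ => by rw [pr3_smul, pr3_x, mul_zero]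
  · rw [pr4_sum]; exact Finset.sum_eq_zero fun a _ => by rw [pr4_smul, pr4_x, mul_zero]

theorem ex2 (hp : 5 < p) (α : W2 → ZMod p) : ∃ y : L, M.cf1 y = 0 ∧
    (∀ F ∈ C2 (ZMod p), pr2 M F y = ∑ w, α w * F w) ∧
    (∀ F, pr3 M F y = 0) ∧ (∀ F, pr4 M F y = 0) := by
  choose c hc using fun w => red_surj (p := p) (2⁻¹ * α w)
  refine ⟨∑ w, c w • b2 x w, ?_, fun F hF => ?_, fun F => ?_, fun F => ?_⟩
  · rw [map_sum]; exact Finset.sum_eq_zero fun a _ => by rw [map_smul, M.cf1_b2, smul_zero]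
  · rw [pr2_sum]
    refine Finset.sum_congr rfl fun w _ => ?_
    rw [pr2_smul, pr2_b2 M hF, hc]
    have := two_ne (p := p) hp
    field_simp
  · rw [pr3_sum]; exact Finset.sum_eq_zero fun a _ => by rw [pr3_smul, pr3_b2, mul_zero]
  · rw [pr4_sum]; exact Finset.sum_eq_zero fun a _ => by rw [pr4_smul, pr4_b2, mul_zero]

theorem ex3 (hp : 5 < p) (α : W3 → ZMod p) : ∃ y : L, M.cf1 y = 0 ∧
    (∀ F ∈ C3 (ZMod p), pr3 M F y = ∑ w, α w * F w) ∧
    (∀ F, pr2 M F y = 0) ∧ (∀ F, pr4 M F y = 0) := by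
  choose c hc using fun w => red_surj (p := p) (3⁻¹ * α w)
  refine ⟨∑ w, c w • b3 x w, ?_, fun F hF => ?_, fun F => ?_, fun F => ?_⟩
  · rw [map_sum]; exact Finset.sum_eq_zero fun a _ => by rw [map_smul, M.cf1_b3, smul_zero]
  · rw [pr3_sum]
    refine Finset.sum_congr rfl fun w _ => ?_
    rw [pr3_smul, pr3_b3 M hF, hc]
    have := three_ne (p := p) hp
    field_simp
  · rw [pr2_sum]; exact Finset.sum_eq_zero fun a _ => by rw [pr2_smul, pr2_b3, mul_zero]
  · rw [pr4_sum]; exact Finset.sum_eq_zero fun a _ => by rw [pr4_smul, pr4_b3, mul_zero]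

theorem ex4 (hp : 5 < p) (α : W4 → ZMod p) : ∃ y : L, M.cf1 y = 0 ∧
    (∀ F ∈ C4 (ZMod p), pr4 M F y = ∑ w, α w * F w) ∧
    (∀ F, pr2 M F y = 0) ∧ (∀ F, pr3 M F y = 0) := by
  choose c hc using fun w => red_surj (p := p) (4⁻¹ * α w)
  refine ⟨∑ w, c w • b4 x w, ?_, fun F hF => ?_, fun F => ?_, fun F => ?_⟩
  · rw [map_sum]; exact Finset.sum_eq_zero fun a _ => by rw [map_smul, M.cf1_b4, smul_zero]
  · rw [pr4_sum]
    refine Finset.sum_congr rfl fun w _ => ?_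
    rw [pr4_smul, pr4_b4 M hF, hc]
    have := four_ne (p := p) hp
    field_simp
  · rw [pr2_sum]; exact Finset.sum_eq_zero fun a _ => by rw [pr2_smul, pr2_b4, mul_zero]
  · rw [pr3_sum]; exact Finset.sum_eq_zero fun a _ => by rw [pr3_smul, pr3_b4, mul_zero]

/-- linear functionals on spaces of functions are dot products -/
theorem dual_dot {W : Type} [Fintype W] [DecidableEq W] {k : Type} [Field k]
    (V : Submodule k (W → k)) (φ : V →ₗ[k] k) : ∃ α : W → k, ∀ F (hF : F ∈ V),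
    φ ⟨F, hF⟩ = ∑ w, α w * F w := by
  obtain ⟨ψ, hψ⟩ := LinearMap.exists_extend φ
  refine ⟨fun w => ψ (Pi.single w 1), fun F hF => ?_⟩
  have h1 : φ ⟨F, hF⟩ = ψ F := by rw [← hψ]; rfl
  rw [h1]
  conv_lhs => rw [← Finset.univ_sum_single F]
  rw [map_sum]
  refine Finset.sum_congr rfl fun w _ => ?_
  have : (Pi.single w (F w) : W → k) = F w • Pi.single w 1 := by
    rw [← Pi.single_smul, smul_eq_mul, mul_one]
  rw [this, map_smul, smul_eq_mul, mul_comm]

/-- separation -/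
theorem sep_dot {W : Type} [Fintype W] [DecidableEq W] {k : Type} [Field k]
    (V : Submodule k (W → k)) (F : W → k) (hF : F ∉ V) : ∃ α : W → k,
    (∀ G ∈ V, ∑ w, α w * G w = 0) ∧ ∑ w, α w * F w ≠ 0 := by
  obtain ⟨f, hf, hfV⟩ := Submodule.exists_dual_map_eq_bot_of_notMem (p := V) hF inferInstance
  obtain ⟨α, hα⟩ := dual_dot (⊤ : Submodule k (W → k)) (f.comp (Submodule.subtype ⊤))
  have hα' : ∀ G, f G = ∑ w, α w * G w := fun G => hα G Submodule.mem_top
  refine ⟨α, fun G hG => ?_, ?_⟩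
  · rw [← hα']
    have : f G ∈ Submodule.map f V := Submodule.mem_map_of_mem hG
    rw [hfV] at this
    exact this
  · rw [← hα']; exact hf

end Pool.Agent.W557.UnifPair
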