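import Pool.Agent.W557.UnifProj
import Pool.Agent.W557.UnifPair

/-!
# The index of a stable ideal
-/

set_option autoImplicit false

namespace Pool.Agent.W557.UnifCfg6a

open Pool.Agent.W373.Unif Pool.Agent.W557.UnifProj

/-- class of a weight: `5` for contents consisting of `5` only, the phase otherwise -/
def cls (N : ℕ) : Fin 6 :=
  let s := N % 5 + N / 5 % 5 + N / 25 % 5 + N / 125 % 5 + N / 625 % 5
  if s = 0 then 5 else
    Fin.ofNat 6 (((N / 5 % 5 + 2 * (N / 25 % 5) + 3 * (N / 125 % 5) + 4 * (N / 625 % 5)) * s ^ 3) % 5)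

theorem cls_x : ∀ a : X, cls (wt (rot a)) = rot (cls (wt a)) := by decide +kernel
theorem cls_b2 : ∀ w : W2, cls (wt2 (rot2 w)) = rot (cls (wt2 w)) := by decide +kernel
theorem cls_b3 : ∀ w : W3, cls (wt3 (rot3 w)) = rot (cls (wt3 w)) := by decide +kernel
theorem cls_b4 : ∀ w : W4, cls (wt4 (rot4 w)) = rot (cls (wt4 w)) := by decide +kernel

theorem cls5_x : ∀ a : X, cls (wt a) = 5 ↔ a = 5 := by decide +kernel
theorem cls5_b2 : ∀ w : W2, cls (wt2 w) = 5 ↔ w = (5, 5) := by decide +kernel
theorem cls5_b3 : ∀ w : W3, cls (wt3 w) = 5 ↔ w = (5, 5, 5) := by decide +kernel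
theorem cls5_b4 : ∀ w : W4, cls (wt4 w) = 5 ↔ w = (5, 5, 5, 5) := by decide +kernel

theorem rot_inj : Function.Injective rot := by
  intro a b; revert a b; decide +kernel

section
variable {R L : Type} [CommRing R] [LieRing L] [LieAlgebra R L] {x : X → L} (M : Model R L x)
  {u : R}

/-- the projection to the class `c` -/
noncomputable def Ec (u : R) (c : Fin 6) : L →ₗ[R] L := E M (fun N => cls N = c) u

theorem Ec_x (hD : S_Dsw) (hu : u * 12 = 1) (c : Fin 6) (a : X) :
    Ec M u c (x a) = if cls (wt a) = c then x a else 0 := E_x M hD hu a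
theorem Ec_b2 (hD : S_Dsw) (hu : u * 12 = 1) (c : Fin 6) (w : W2) :
    Ec M u c (b2 x w) = if cls (wt2 w) = c then b2 x w else 0 := E_b2 M hD hu w
theorem Ec_b3 (hD : S_Dsw) (hu : u * 12 = 1) (c : Fin 6) (w : W3) :
    Ec M u c (b3 x w) = if cls (wt3 w) = c then b3 x w else 0 := E_b3 M hD hu w
theorem Ec_b4 (hD : S_Dsw) (hu : u * 12 = 1) (c : Fin 6) (w : W4) :
    Ec M u c (b4 x w) = if cls (wt4 w) = c then b4 x w else 0 := E_b4 M hD hu w

theorem sum_Ec (hD : S_Dsw) (hu : u * 12 = 1) (y : L) : ∑ c, Ec M u c y = y := by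
  have h := ext_words M (∑ c, Ec M u c) LinearMap.id
    (fun a => by rw [LinearMap.sum_apply, LinearMap.id_apply,
      Finset.sum_congr rfl fun c _ => Ec_x M hD hu c a]; simp)
    (fun a => by rw [LinearMap.sum_apply, LinearMap.id_apply,
      Finset.sum_congr rfl fun c _ => Ec_b2 M hD hu c a]; simp)
    (fun a => by rw [LinearMap.sum_apply, LinearMap.id_apply,
      Finset.sum_congr rfl fun c _ => Ec_b3 M hD hu c a]; simp)
    (fun a => by rw [LinearMap.sum_apply, LinearMap.id_apply,
      Finset.sum_congr rfl fun c _ => Ec_b4 M hD hu c a]; simp) y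
  rw [LinearMap.sum_apply] at h
  exact h

theorem Ec_Ec (hD : S_Dsw) (hu : u * 12 = 1) (c d : Fin 6) (y : L) :
    Ec M u c (Ec M u d y) = if c = d then Ec M u d y else 0 := by
  have key : ∀ (z : L) (e : Fin 6), (∀ c, Ec M u c z = if e = c then z else 0) →
      Ec M u c (Ec M u d z) = if c = d then Ec M u d z else 0 := by
    intro z e h
    rw [h d]
    by_cases h1 : e = d
    · subst h1
      rw [if_pos rfl, h c]
      by_cases h2 : e = c
      · subst h2; simp
      · rw [if_neg h2, if_neg (fun h => h2 h.symm)]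
    · rw [if_neg h1, map_zero]; simp
  refine indR (P := fun y => Ec M u c (Ec M u d y) = if c = d then Ec M u d y else 0) M
    (fun a => key _ _ fun c => Ec_x M hD hu c a) (fun w => key _ _ fun c => Ec_b2 M hD hu c w)
    (fun w => key _ _ fun c => Ec_b3 M hD hu c w) (fun w => key _ _ fun c => Ec_b4 M hD hu c w)
    (by simp) (fun y z hy hz => ?_) (fun t y hy => ?_) y
  · rw [map_add, map_add, hy, hz]; split_ifs <;> simp
  · rw [map_smul, map_smul, hy]; split_ifs <;> simp

theorem Ec_five (hD : S_Dsw) (hu : u * 12 = 1) (y : L) :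
    Ec M u 5 y = M.cf1 y 5 • x 5 := by
  have hz2 : b2 x (5, 5) = 0 := lie_self _
  have hz3 : b3 x (5, 5, 5) = 0 := by
    show ⁅x 5, b2 x (5, 5)⁆ = 0
    rw [hz2, lie_zero]
  have hz4 : b4 x (5, 5, 5, 5) = 0 := by
    show ⁅x 5, b3 x (5, 5, 5)⁆ = 0
    rw [hz3, lie_zero]
  refine indR (P := fun y => Ec M u 5 y = M.cf1 y 5 • x 5) M (fun a => ?_) (fun w => ?_)
    (fun w => ?_) (fun w => ?_) (by simp) (fun y z hy hz => ?_) (fun t y hy => ?_) y
  · rw [Ec_x M hD hu, M.cf1_x]
    by_cases h : a = 5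
    · subst h
      rw [if_pos ((cls5_x 5).mpr rfl)]; simp
    · rw [if_neg (fun h' => h ((cls5_x a).mp h')), Pi.single_eq_of_ne (fun h' => h h'.symm),
        zero_smul]
  · rw [Ec_b2 M hD hu, M.cf1_b2, Pi.zero_apply, zero_smul]
    split_ifs with h
    · rw [(cls5_b2 w).mp h, hz2]
    · rfl
  · rw [Ec_b3 M hD hu, M.cf1_b3, Pi.zero_apply, zero_smul]
    split_ifs with h
    · rw [(cls5_b3 w).mp h, hz3]
    · rfl
  · rw [Ec_b4 M hD hu, M.cf1_b4, Pi.zero_apply, zero_smul]
    split_ifs with h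
    · rw [(cls5_b4 w).mp h, hz4]
    · rfl
  · rw [map_add, hy, hz, map_add, Pi.add_apply, add_smul]
  · rw [map_smul, hy, map_smul, Pi.smul_apply, smul_eq_mul, mul_smul]

theorem rho_Ec (hD : S_Dsw) (hu : u * 12 = 1) (c : Fin 6) (y : L) :
    rho M (Ec M u c y) = Ec M u (rot c) (rho M y) := by
  refine indR (P := fun y => rho M (Ec M u c y) = Ec M u (rot c) (rho M y)) M
    (fun a => ?_) (fun w => ?_) (fun w => ?_) (fun w => ?_) (by simp)
    (fun y z hy hz => ?_) (fun t y hy => ?_) y
  · rw [Ec_x M hD hu, rho_x, Ec_x M hD hu, cls_x]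
    simp only [rot_inj.eq_iff]
    split_ifs
    · exact rho_x M a
    · exact map_zero _
  · rw [Ec_b2 M hD hu, rho_b2, Ec_b2 M hD hu, cls_b2]
    simp only [rot_inj.eq_iff]
    split_ifs
    · exact rho_b2 M w
    · exact map_zero _
  · rw [Ec_b3 M hD hu, rho_b3, Ec_b3 M hD hu, cls_b3]
    simp only [rot_inj.eq_iff]
    split_ifs
    · exact rho_b3 M w
    · exact map_zero _
  · rw [Ec_b4 M hD hu, rho_b4, Ec_b4 M hD hu, cls_b4]
    simp only [rot_inj.eq_iff]
    split_ifs
    · exact rho_b4 M w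
    · exact map_zero _
  · rw [map_add, map_add, hy, hz, map_add, map_add]
  · rw [map_smul, map_smul, hy, map_smul, map_smul]

end

/-- cardinality of a finite module with orthogonal projections permuted by a rotation -/
theorem card_abs {Q : Type} [AddCommGroup Q] [Finite Q] (e : Fin 6 → Q →+ Q)
    (hsum : ∀ q, ∑ c, e c q = q) (horth : ∀ c d q, e c (e d q) = if c = d then e d q else 0)
    (r : Q → Q) (hr : Function.Injective r) (hre : ∀ c q, r (e c q) = e (rot c) (r q)) :
    Nat.card Q = Nat.card (e 5).range * Nat.card (e 0).range ^ 5 := by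
  let f : Q → (∀ c : Fin 6, (e c).range) := fun q c => ⟨e c q, ⟨q, rfl⟩⟩
  have hf : Function.Bijective f := by
    constructor
    · intro q q' h
      rw [← hsum q, ← hsum q']
      refine Finset.sum_congr rfl fun c _ => ?_
      exact congrArg Subtype.val (congrFun h c)
    · intro g
      refine ⟨∑ d, (g d : Q), ?_⟩
      funext c
      apply Subtype.ext
      show e c (∑ d, (g d : Q)) = g c
      rw [map_sum]
      have h1 : ∀ d, e c (g d : Q) = if c = d then (g d : Q) else 0 := by
        intro d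
        obtain ⟨q, hq⟩ := (g d).2
        rw [← hq, horth]
      rw [Finset.sum_congr rfl fun d _ => h1 d]
      simp
  have hle : ∀ c, Nat.card (e c).range ≤ Nat.card (e (rot c)).range := by
    intro c
    refine Nat.card_le_card_of_injective
      (fun q : (e c).range => (⟨r q.1, by
        obtain ⟨q0, hq0⟩ := q.2
        rw [← hq0, hre]
        exact ⟨_, rfl⟩⟩ : (e (rot c)).range)) ?_
    intro q q' h
    exact Subtype.ext (hr (congrArg Subtype.val h))
  have h0 := hle 0
  have h1 := hle 1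
  have h2 := hle 2
  have h3 := hle 3
  have h4 := hle 4
  have e0 : rot 0 = 1 := rfl
  have e1 : rot 1 = 2 := rfl
  have e2 : rot 2 = 3 := rfl
  have e3 : rot 3 = 4 := rfl
  have e4 : rot 4 = 0 := rfl
  rw [e0] at h0
  rw [e1] at h1
  rw [e2] at h2
  rw [e3] at h3
  rw [e4] at h4
  have k1 : Nat.card (e 1).range = Nat.card (e 0).range := by omega
  have k2 : Nat.card (e 2).range = Nat.card (e 0).range := by omega
  have k3 : Nat.card (e 3).range = Nat.card (e 0).range := by omega
  have k4 : Nat.card (e 4).range = Nat.card (e 0).range := by omega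
  rw [Nat.card_congr (Equiv.ofBijective f hf), Nat.card_pi, Fin.prod_univ_six, k1, k2, k3, k4]
  ring

theorem main (hD : S_Dsw) : S_Cfg6a := by
  intro p hp L _ _ x M I m n h5 hMG hRot hm hcard
  -- the inverse of 12
  have h12 : IsUnit (12 : ℤ_[p]) := by
    have h1 : (12 : ℤ_[p]) = ((12 : ℕ) : ℤ_[p]) := by norm_num
    rw [h1, PadicInt.isUnit_iff, PadicInt.norm_natCast_eq_one_iff]
    have h2 : p.Coprime 12 := by
      rw [hp.out.coprime_iff_not_dvd]
      intro h
      have h3 : p ∣ 2 ^ 2 * 3 := h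
      rcases (hp.out.dvd_mul).mp h3 with h4 | h4
      · have := Nat.le_of_dvd (by norm_num) (hp.out.dvd_of_dvd_pow h4); omega
      · have := Nat.le_of_dvd (by norm_num) h4; omega
    exact h2
  obtain ⟨u, hu⟩ := h12.exists_left_inv
  have hfin : Finite (L ⧸ (I : Submodule ℤ_[p] L)) := by
    apply Nat.finite_of_card_ne_zero
    rw [hcard]
    exact pow_ne_zero _ hp.out.ne_zero
  -- induced maps on the quotient
  let Q := L ⧸ (I : Submodule ℤ_[p] L)
  have hEI : ∀ c, (I : Submodule ℤ_[p] L) ≤ (I : Submodule ℤ_[p] L).comap (Ec M u c) := by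
    intro c y hy
    exact E_mem M hD hu I hMG y hy
  have hrI : (I : Submodule ℤ_[p] L) ≤
      (I : Submodule ℤ_[p] L).comap (rho M : L →ₗ[ℤ_[p]] L) := by
    intro y hy
    exact rho_mem M I hRot y hy
  let e : Fin 6 → Q →ₗ[ℤ_[p]] Q := fun c => Submodule.mapQ _ _ (Ec M u c) (hEI c)
  let r : Q →ₗ[ℤ_[p]] Q := Submodule.mapQ _ _ (rho M : L →ₗ[ℤ_[p]] L) hrI
  have he : ∀ c (y : L), e c (Submodule.Quotient.mk y) = Submodule.Quotient.mk (Ec M u c y) :=
    fun c y => rfl
  have hrq : ∀ y : L, r (Submodule.Quotient.mk y) = Submodule.Quotient.mk (rho M y) :=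
    fun y => rfl
  have hsurj : ∀ q : Q, ∃ y : L, q = Submodule.Quotient.mk y := by
    intro q
    obtain ⟨y, hy⟩ := Submodule.Quotient.mk_surjective _ q
    exact ⟨y, hy.symm⟩
  have hr5 : ∀ q : Q, r (r (r (r (r q)))) = q := by
    intro q
    obtain ⟨y, rfl⟩ := hsurj q
    rw [hrq, hrq, hrq, hrq, hrq, rho_five]
  have key := card_abs (fun c => (e c).toAddMonoidHom)
    (fun q => by
      obtain ⟨y, rfl⟩ := hsurj q
      show ∑ c, e c (Submodule.Quotient.mk y) = Submodule.Quotient.mk y
      rw [Finset.sum_congr rfl fun c _ => he c y]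
      conv_rhs => rw [← sum_Ec M hD hu y]
      exact (map_sum (Submodule.mkQ (I : Submodule ℤ_[p] L)) _ _).symm)
    (fun c d q => by
      obtain ⟨y, rfl⟩ := hsurj q
      show e c (e d (Submodule.Quotient.mk y)) = if c = d then e d (Submodule.Quotient.mk y) else 0
      rw [he, he, Ec_Ec M hD hu]
      split_ifs <;> rfl)
    r (fun q q' h => by
      rw [← hr5 q, ← hr5 q', h])
    (fun c q => by
      obtain ⟨y, rfl⟩ := hsurj q
      show r (e c (Submodule.Quotient.mk y)) = e (rot c) (r (Submodule.Quotient.mk y))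
      rw [he, hrq, hrq, he, rho_Ec M hD hu])
  -- the cardinality of the fixed part
  have h5c : Nat.card (e 5).toAddMonoidHom.range = p ^ m := by
    let g : ℤ_[p] →ₗ[ℤ_[p]] Q := (Submodule.mkQ _).comp (LinearMap.toSpanSingleton ℤ_[p] L (x 5))
    have hg : ∀ t, g t = Submodule.Quotient.mk (t • x 5) := fun t => rfl
    have hrange : ((e 5).toAddMonoidHom.range : Set Q) = (LinearMap.range g : Set Q) := by
      ext q
      constructor
      · rintro ⟨q', rfl⟩
        obtain ⟨y, rfl⟩ := hsurj q'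
        refine ⟨M.cf1 y 5, ?_⟩
        rw [hg, ← Ec_five M hD hu]
        rfl
      · rintro ⟨t, rfl⟩
        refine ⟨Submodule.Quotient.mk (t • x 5), ?_⟩
        have ht : M.cf1 (t • x 5) 5 = t := by rw [map_smul, M.cf1_x]; simp
        show e 5 (Submodule.Quotient.mk (t • x 5)) = _
        rw [he, hg, Ec_five M hD hu, ht]
    have hker : ∀ t : ℤ_[p], t • x 5 ∈ I ↔ (p : ℤ_[p]) ^ m ∣ t := by
      intro t
      by_cases ht : t = 0
      · subst ht; simp
      · have h1 := PadicInt.unitCoeff_spec ht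
        constructor
        · intro h
          have h2 : (p : ℤ_[p]) ^ t.valuation • x 5 ∈ I := by
            have h3 : (p : ℤ_[p]) ^ t.valuation =
                ((PadicInt.unitCoeff ht)⁻¹ : ℤ_[p]ˣ) * t := by
              calc (p : ℤ_[p]) ^ t.valuation = ((PadicInt.unitCoeff ht)⁻¹ : ℤ_[p]ˣ) *
                    ((PadicInt.unitCoeff ht : ℤ_[p]) * (p : ℤ_[p]) ^ t.valuation) := by
                    rw [← mul_assoc, Units.inv_mul, one_mul]
                _ = _ := by rw [← h1]
            rw [h3, mul_smul]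
            exact I.smul_mem _ h
          have h4 := (hm _).mp h2
          rw [h1]
          exact Dvd.dvd.mul_left (pow_dvd_pow _ h4) _
        · rintro ⟨c, rfl⟩
          rw [mul_comm, mul_smul]
          exact I.smul_mem _ ((hm m).mpr le_rfl)
    have hkg : LinearMap.ker g = RingHom.ker (PadicInt.toZModPow (p := p) m) := by
      ext t
      rw [LinearMap.mem_ker, hg, PadicInt.ker_toZModPow, Ideal.mem_span_singleton, ← hker t]
      exact Submodule.Quotient.mk_eq_zero _
    have c1 : Nat.card (e 5).toAddMonoidHom.range = Nat.card (LinearMap.range g) := by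
      show Nat.card ((e 5).toAddMonoidHom.range : Set Q) = Nat.card (LinearMap.range g : Set Q)
      rw [hrange]
    have c2 : Nat.card (LinearMap.range g) = Nat.card (ℤ_[p] ⧸ LinearMap.ker g) :=
      (Nat.card_congr g.quotKerEquivRange.toEquiv).symm
    have c3 : Nat.card (ℤ_[p] ⧸ RingHom.ker (PadicInt.toZModPow (p := p) m)) = p ^ m := by
      rw [Nat.card_congr (RingHom.quotientKerEquivOfSurjective
        (ZMod.ringHom_surjective (PadicInt.toZModPow (p := p) m))).toEquiv, Nat.card_zmod]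
    rw [c1, c2, hkg]
    exact c3
  have hk : Nat.card (e 0).toAddMonoidHom.range ∣ p ^ n := by
    rw [← hcard, key]
    exact Dvd.dvd.mul_left (dvd_pow_self _ (by norm_num)) _
  obtain ⟨k, -, hk⟩ := (Nat.dvd_prime_pow hp.out).mp hk
  have hkey : p ^ n = p ^ m * (p ^ k) ^ 5 := by
    rw [← hcard, ← h5c, ← hk]
    exact key
  rw [← pow_mul, ← pow_add] at hkey
  have := Nat.pow_right_injective hp.out.two_le hkey
  have h6 : n = m + k * 5 := this
  rw [h6]
  simp [Nat.ModEq]

end Pool.Agent.W557.UnifCfg6a
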