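import Pool.Agent.W373.Unif.Statements

set_option autoImplicit false

namespace Pool.Agent.W557.UnifEC

open scoped Matrix

open Pool.Agent.W373.Unif

section
variable {W : Type} [Fintype W] (k : Type) [CommRing k]

/-- the pairing with an integer vector -/
def pair (v : W → ℤ) (F : W → k) : k := ∑ w, (v w : k) * F w

theorem pair_add (v v' : W → ℤ) (F : W → k) : pair k (v + v') F = pair k v F + pair k v' F := by
  simp [pair, add_mul, Finset.sum_add_distrib]

theorem pair_smul (c : ℤ) (v : W → ℤ) (F : W → k) : pair k (c • v) F = (c : k) * pair k v F := by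
  simp [pair, Finset.mul_sum, mul_assoc]

theorem pair_zero (F : W → k) : pair k (0 : W → ℤ) F = 0 := by
  simp [pair]

theorem pair_span (s : Set (W → ℤ)) (F : W → k) (h : ∀ v ∈ s, pair k v F = 0) :
    ∀ v ∈ Submodule.span ℤ s, pair k v F = 0 := by
  intro v hv
  induction hv using Submodule.span_induction with
  | mem v hv => exact h v hv
  | zero => exact pair_zero k F
  | add v v' _ _ h1 h2 => rw [pair_add, h1, h2, add_zero]
  | smul c v _ h1 => rw [pair_smul, h1, mul_zero]

end

theorem main : S_EC := by
  classical
  intro ι W _ _ A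
  set N : Submodule ℤ (W → ℤ) := Submodule.span ℤ (Set.range A) with hN
  obtain ⟨n, bM, bN, f, a, snf⟩ := N.smithNormalForm (Pi.basisFun ℤ W)
  refine ⟨∑ j, (a j).natAbs, Fintype.card W - n, ?_⟩
  intro p hp hNp
  have ha0 : ∀ j, a j ≠ 0 := by
    intro j hj
    have h1 := snf j
    rw [hj, zero_smul] at h1
    have h2 : bN j = 0 := Subtype.ext h1
    exact bN.ne_zero j h2
  have hap : ∀ j, ((a j : ℤ) : ZMod p) ≠ 0 := by
    intro j hj
    rw [ZMod.intCast_zmod_eq_zero_iff_dvd] at hj
    have h1 : p ∣ (a j).natAbs := Int.natCast_dvd.mp hj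
    have h2 := Nat.le_of_dvd (Int.natAbs_pos.mpr (ha0 j)) h1
    have h3 : (a j).natAbs ≤ ∑ j, (a j).natAbs :=
      Finset.single_le_sum (f := fun j => (a j).natAbs) (fun _ _ => Nat.zero_le _)
        (Finset.mem_univ j)
    omega
  -- the solution space as the kernel of a surjective map
  let T : (W → ZMod p) →ₗ[ZMod p] (Fin n → ZMod p) :=
    { toFun := fun F j => pair (ZMod p) (bM (f j)) F
      map_add' := by
        intro F G
        funext j
        simp [pair, mul_add, Finset.sum_add_distrib]
      map_smul' := by
        intro c F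
        funext j
        simp only [pair, Pi.smul_apply, smul_eq_mul, RingHom.id_apply, Finset.mul_sum]
        exact Finset.sum_congr rfl fun w _ => by ring }
  have hker : solZ A (ZMod p) = LinearMap.ker T := by
    ext F
    constructor
    · intro hF
      rw [LinearMap.mem_ker]
      funext j
      have h1 : pair (ZMod p) ((bN j : N) : W → ℤ) F = 0 := by
        apply pair_span (ZMod p) (Set.range A) F _ _ (bN j).2
        rintro _ ⟨i, rfl⟩
        exact hF i
      rw [snf j, pair_smul] at h1
      exact (mul_eq_zero.mp h1).resolve_left (hap j)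
    · intro hF i
      have hF' : ∀ j, pair (ZMod p) (bM (f j)) F = 0 := fun j => congrFun hF j
      have h2 : A i ∈ N := Submodule.subset_span ⟨i, rfl⟩
      have h3 : A i ∈ Submodule.span ℤ (Set.range fun j => ((bN j : N) : W → ℤ)) := by
        have h4 : (⟨A i, h2⟩ : N) ∈ Submodule.span ℤ (Set.range bN) := by
          rw [bN.span_eq]; exact Submodule.mem_top
        have h5 := Submodule.mem_map_of_mem (f := N.subtype) h4
        rw [Submodule.map_span, ← Set.range_comp] at h5
        exact h5
      refine pair_span (ZMod p) _ F ?_ _ h3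
      rintro _ ⟨j, rfl⟩
      simp only
      rw [snf j, pair_smul, hF' j, mul_zero]
  have hsurj : Function.Surjective T := by
    intro G
    set M1 : Matrix W W ℤ := (Pi.basisFun ℤ W).toMatrix bM with hM1
    set M2 : Matrix W W ℤ := bM.toMatrix (Pi.basisFun ℤ W) with hM2
    have h1 : M2 * M1 = 1 := Module.Basis.toMatrix_mul_toMatrix_flip _ _
    have h2 : M2.map (Int.castRingHom (ZMod p)) * M1.map (Int.castRingHom (ZMod p)) = 1 := by
      rw [← Matrix.map_mul, h1, Matrix.map_one _ (map_zero _) (map_one _)]
    set G' : W → ZMod p := Function.extend f G 0 with hG'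
    refine ⟨G' ᵥ* M2.map (Int.castRingHom (ZMod p)), ?_⟩
    funext j
    have h3 : (G' ᵥ* M2.map (Int.castRingHom (ZMod p))) ᵥ* M1.map (Int.castRingHom (ZMod p)) =
        G' := by
      rw [Matrix.vecMul_vecMul, h2, Matrix.vecMul_one]
    have h4 := congrFun h3 (f j)
    have h5 : G' (f j) = G j := f.injective.extend_apply G 0 j
    rw [h5] at h4
    rw [← h4]
    simp only [T, LinearMap.coe_mk, AddHom.coe_mk, pair, Matrix.vecMul, dotProduct, Matrix.map_apply,
      hM1, Module.Basis.toMatrix_apply, Pi.basisFun_repr, eq_intCast]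
    exact Finset.sum_congr rfl fun w _ => by ring
  rw [hker]
  have h6 := T.finrank_range_add_finrank_ker
  rw [LinearMap.range_eq_top.mpr hsurj, finrank_top, Module.finrank_fintype_fun_eq_card,
    Module.finrank_fintype_fun_eq_card, Fintype.card_fin] at h6
  omega

end Pool.Agent.W557.UnifEC
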