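import Pool.Agent.W510.CG.Stm

/-!
Project CG (helper510), part NT0: every node can be moved to the base node.
-/

set_option autoImplicit false

namespace Pool.Agent.W557.CGNT0

open Pool.Agent.W510.CG

section
variable {L : Type} [AddCommGroup L] [LinearOrder L] [IsOrderedAddMonoid L]

/-- the translation -/
noncomputable def E (f : L →₀ ℤ) (l : L) : (L →₀ ℤ) ≃ (L →₀ ℤ) :=
  (Equiv.subRight f).trans (Finsupp.equivCongrLeft (Equiv.subRight l))

theorem E_apply (f : L →₀ ℤ) (l : L) (x : L →₀ ℤ) (ν : L) :
    E f l x ν = x (ν + l) - f (ν + l) := by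
  simp [E, Finsupp.equivMapDomain_apply]

/-- the permutation of the ends -/
noncomputable def τ (f : L →₀ ℤ) (l : L) : Equiv.Perm (Pt L) := Equiv.optionCongr (E f l)

theorem τ_none (f : L →₀ ℤ) (l : L) : τ f l none = none := rfl

theorem τ_some (f : L →₀ ℤ) (l : L) (x : L →₀ ℤ) : τ f l (some x) = some (E f l x) := rfl

theorem v_E (f : L →₀ ℤ) (l : L) {x y : L →₀ ℤ} (h : x ≠ y) :
    v (E f l x - E f l y) = v (x - y) - l := by
  obtain ⟨h1, h2⟩ := v_spec (sub_ne_zero.2 h)
  refine v_eq ?_ ?_
  · rw [Finsupp.sub_apply, E_apply, E_apply, sub_add_cancel]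
    rw [Finsupp.sub_apply] at h1
    intro h3
    apply h1
    linarith
  · intro μ hμ
    have h3 := h2 (μ + l) (by rwa [sub_lt_iff_lt_add] at hμ)
    rw [Finsupp.sub_apply] at h3
    rw [Finsupp.sub_apply, E_apply, E_apply]
    linarith

open Classical in
theorem w_τ (f : L →₀ ℤ) (l : L) (a b : Pt L) (h : a ≠ b) :
    w (τ f l a) (τ f l b) = w a b - (if a = none ∨ b = none then 0 else l) := by
  rcases a with _ | x
  · simp [τ_none]
  · rcases b with _ | y
    · simp [τ_none]
    · rw [τ_some, τ_some, w_some, w_some, v_E f l (fun h' => h (by rw [h']))]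
      simp

theorem τ_mem (f : L →₀ ℤ) (l : L) : τ f l ∈ Iso L := by
  classical
  rw [mem_Iso]
  rintro a b c d ⟨h1, h2, h3, h4, h5, h6⟩
  unfold Y
  rw [w_τ f l a d h3, w_τ f l b c h4, w_τ f l a b h1, w_τ f l c d h6]
  by_cases ha : a = none
  · subst ha
    rw [if_pos (Or.inl rfl), if_pos (Or.inl rfl), if_neg (by
      rintro (h | h)
      · exact h1 h.symm
      · exact h2 h.symm), if_neg (by
      rintro (h | h)
      · exact h2 h.symm
      · exact h3 h.symm)]
    abel
  · by_cases hb : b = none
    · subst hb
      rw [if_neg (by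
        rintro (h | h)
        · exact ha h
        · exact h5 h.symm), if_pos (Or.inl rfl), if_pos (Or.inr rfl), if_neg (by
        rintro (h | h)
        · exact h4 h.symm
        · exact h5 h.symm)]
      abel
    · by_cases hc : c = none
      · subst hc
        rw [if_neg (by
          rintro (h | h)
          · exact ha h
          · exact h6 h.symm), if_pos (Or.inr rfl), if_neg (by
          rintro (h | h)
          · exact ha h
          · exact hb h), if_pos (Or.inl rfl)]
        abel
      · by_cases hd : d = none
        · subst hd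
          rw [if_pos (Or.inr rfl), if_neg (by
            rintro (h | h)
            · exact hb h
            · exact hc h), if_neg (by
            rintro (h | h)
            · exact ha h
            · exact hb h), if_pos (Or.inr rfl)]
          abel
        · simp only [ha, hb, hc, hd, or_self, if_false]
          abel

theorem br_τ (f : L →₀ ℤ) (l : L) (z : Pt L) :
    br (γ0 L) (τ f l z) = Option.map (fun t => t - f l) (br (f, l) z) := by
  rcases z with _ | x
  · rfl
  · rw [τ_some]
    have hiff : (∀ μ : L, (γ0 L).2 < μ → E f l x μ = (γ0 L).1 μ) ↔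
        ∀ μ : L, (f, l).2 < μ → x μ = (f, l).1 μ := by
      constructor
      · intro h μ hμ
        have h1 := h (μ - l) (by simpa [γ0] using hμ)
        rw [E_apply, sub_add_cancel] at h1
        simp only [γ0, Finsupp.coe_zero, Pi.zero_apply] at h1
        linarith
      · intro h μ hμ
        have h1 := h (μ + l) (by
          have : (0 : L) < μ := hμ
          simpa using this)
        rw [E_apply]
        simp only [γ0, Finsupp.coe_zero, Pi.zero_apply]
        linarith
    by_cases h : ∀ μ : L, (f, l).2 < μ → x μ = (f, l).1 μ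
    · rw [br_some_of h, br_some_of (hiff.2 h)]
      simp only [γ0, Option.map_some, E_apply, zero_add]
    · rw [br_some_not h, br_some_not (fun h' => h (hiff.1 h'))]
      rfl

end

theorem main : S_NT0 := by
  intro L _ _ _ γ
  refine ⟨τ γ.1 γ.2, τ_mem _ _, fun z z' => ?_⟩
  rw [br_τ, br_τ]
  exact (Option.map_injective (fun a b h => by simpa using h)).eq_iff

end Pool.Agent.W557.CGNT0
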