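import Pool.Agent.H24R2.DZ.Spec

set_option autoImplicit false

namespace Pool.Agent.W557.SDSPhi

open Pool.Agent.H24R2.DZ Finset

theorem local_le (p : ℕ) (hp : p.Prime) :
    (1 - (p : ℝ)⁻¹)⁻¹ ^ 2 ≤ (if p < 36 then 4 else 1) * (1 + (p : ℝ) ^ (-(1/2) : ℝ)) := by
  have h2 : (2 : ℝ) ≤ p := by exact_mod_cast hp.two_le
  have hp0 : (0 : ℝ) < p := by linarith
  have hs : 0 < (p : ℝ) ^ (-(1/2) : ℝ) := Real.rpow_pos_of_pos hp0 _
  have h3 : (p : ℝ)⁻¹ ≤ 1/2 := by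
    rw [one_div]
    exact inv_anti₀ (by norm_num) h2
  have h4 : (1 - (p : ℝ)⁻¹)⁻¹ ≤ 2 := by
    rw [inv_le_comm₀ (by linarith) (by norm_num)]; linarith
  have h5 : 0 < (1 - (p : ℝ)⁻¹)⁻¹ := inv_pos.mpr (by linarith)
  split_ifs with h
  · nlinarith
  · push Not at h
    have h6 : (36 : ℝ) ≤ p := by exact_mod_cast h
    -- (1-1/p)^(-2) ≤ 1 + 6/p ≤ 1 + p^(-1/2)
    have h7 : (6 : ℝ) * (p : ℝ)⁻¹ ≤ (p : ℝ) ^ (-(1/2) : ℝ) := by
      have h8 : (p : ℝ)⁻¹ = (p : ℝ) ^ (-(1/2) : ℝ) * (p : ℝ) ^ (-(1/2) : ℝ) := by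
        rw [← Real.rpow_add hp0]; norm_num [Real.rpow_neg_one]
      have h9 : (p : ℝ) ^ (-(1/2) : ℝ) ≤ 6⁻¹ := by
        rw [Real.rpow_neg hp0.le, ← Real.sqrt_eq_rpow]
        apply inv_anti₀ (by norm_num)
        rw [show (6:ℝ) = Real.sqrt 36 by
          rw [show (36:ℝ) = 6 ^ 2 by norm_num, Real.sqrt_sq (by norm_num)]]
        exact Real.sqrt_le_sqrt h6
      rw [h8]
      nlinarith
    have h10 : (1 - (p : ℝ)⁻¹)⁻¹ ^ 2 ≤ 1 + 6 * (p : ℝ)⁻¹ := by
      have hx0 : 0 < (p : ℝ)⁻¹ := inv_pos.mpr hp0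
      generalize (p : ℝ)⁻¹ = x at hx0 h3
      rw [inv_pow, inv_le_iff_one_le_mul₀ (by apply pow_pos; linarith)]
      have hq : 0 ≤ x * (4 - 11 * x + 6 * x ^ 2) := by
        apply mul_nonneg hx0.le
        nlinarith
      nlinarith
    linarith

theorem ratio_sq (k : ℕ) (hk : 1 ≤ k) :
    ((k : ℝ) / (Nat.totient k : ℝ)) ^ 2 = ∏ p ∈ k.primeFactors, (1 - (p : ℝ)⁻¹)⁻¹ ^ 2 := by
  have h := Nat.totient_eq_mul_prod_factors k
  have h' : (Nat.totient k : ℝ) = k * ∏ p ∈ k.primeFactors, (1 - (p : ℝ)⁻¹) := by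
    have := congrArg (fun q : ℚ => (q : ℝ)) h
    push_cast at this
    exact this
  have hk0 : (k : ℝ) ≠ 0 := by
    have : (1 : ℝ) ≤ k := by exact_mod_cast hk
    linarith
  rw [h', div_mul_cancel_left₀ hk0, prod_pow, prod_inv_distrib]

theorem ratio_le (k : ℕ) (hk : 1 ≤ k) :
    ((k : ℝ) / (Nat.totient k : ℝ)) ^ 2 ≤ 4 ^ 36 * ∑ d ∈ k.divisors, (d : ℝ) ^ (-(1/2) : ℝ) := by
  rw [ratio_sq k hk]
  have hpr : ∀ p ∈ k.primeFactors, p.Prime := fun p hp => Nat.prime_of_mem_primeFactors hp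
  calc ∏ p ∈ k.primeFactors, (1 - (p : ℝ)⁻¹)⁻¹ ^ 2
      ≤ ∏ p ∈ k.primeFactors, ((if p < 36 then (4:ℝ) else 1) * (1 + (p : ℝ) ^ (-(1/2) : ℝ))) :=
        prod_le_prod (fun p _ => by positivity) (fun p hp => local_le p (hpr p hp))
    _ = (∏ p ∈ k.primeFactors, (if p < 36 then (4:ℝ) else 1)) *
          ∏ p ∈ k.primeFactors, (1 + (p : ℝ) ^ (-(1/2) : ℝ)) := prod_mul_distrib
    _ ≤ 4 ^ 36 * ∑ d ∈ k.divisors, (d : ℝ) ^ (-(1/2) : ℝ) := by
        apply mul_le_mul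
        · rw [← prod_filter]
          rw [prod_const]
          apply pow_le_pow_right₀ (by norm_num)
          calc (k.primeFactors.filter (fun p => p < 36)).card ≤ (range 36).card := by
                apply card_le_card
                intro p hp
                rw [mem_filter] at hp
                exact mem_range.mpr hp.2
            _ = 36 := card_range 36
        · rw [prod_one_add]
          have h1 : ∀ s ∈ k.primeFactors.powerset, ∏ p ∈ s, (p : ℝ) ^ (-(1/2) : ℝ) =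
              ((∏ p ∈ s, p : ℕ) : ℝ) ^ (-(1/2) : ℝ) := by
            intro s _
            rw [Real.finsetProd_rpow _ _ (fun p _ => by positivity)]
            push_cast
            rfl
          rw [sum_congr rfl h1]
          have hinj : Set.InjOn (fun s : Finset ℕ => ∏ p ∈ s, p)
              (k.primeFactors.powerset : Set (Finset ℕ)) := by
            intro s hs t ht hst
            rw [mem_coe, mem_powerset] at hs ht
            have e1 := Nat.primeFactors_prod (s := s) (fun p hp => hpr p (hs hp))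
            have e2 := Nat.primeFactors_prod (s := t) (fun p hp => hpr p (ht hp))
            simp only at hst
            rw [← e1, ← e2, hst]
          rw [← sum_image (f := fun d : ℕ => (d : ℝ) ^ (-(1/2) : ℝ)) hinj]
          apply sum_le_sum_of_subset_of_nonneg
          · intro d hd
            rw [mem_image] at hd
            obtain ⟨s, hs, rfl⟩ := hd
            rw [mem_powerset] at hs
            rw [Nat.mem_divisors]
            refine ⟨?_, by omega⟩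
            exact (prod_dvd_prod_of_subset _ _ _ hs).trans (Nat.prod_primeFactors_dvd k)
          · intro d _ _
            positivity
        · exact prod_nonneg fun p _ => by positivity
        · positivity

theorem term_le (k : ℕ) (hk : 1 ≤ k) :
    (k : ℝ) / (Nat.totient k : ℝ) ^ 2 ≤
      4 ^ 36 * ∑ x ∈ k.divisorsAntidiagonal, (x.1 : ℝ) ^ (-(3/2) : ℝ) * (x.2 : ℝ)⁻¹ := by
  have hk0 : (0 : ℝ) < k := by exact_mod_cast hk
  have h1 : (k : ℝ) / (Nat.totient k : ℝ) ^ 2 = (k : ℝ)⁻¹ * ((k : ℝ) / (Nat.totient k : ℝ)) ^ 2 := by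
    field_simp
  rw [h1]
  calc (k : ℝ)⁻¹ * ((k : ℝ) / (Nat.totient k : ℝ)) ^ 2
      ≤ (k : ℝ)⁻¹ * (4 ^ 36 * ∑ d ∈ k.divisors, (d : ℝ) ^ (-(1/2) : ℝ)) := by
        apply mul_le_mul_of_nonneg_left (ratio_le k hk) (by positivity)
    _ = 4 ^ 36 * ∑ d ∈ k.divisors, (k : ℝ)⁻¹ * (d : ℝ) ^ (-(1/2) : ℝ) := by
        rw [← mul_sum]; ring
    _ = 4 ^ 36 * ∑ x ∈ k.divisorsAntidiagonal, (x.1 : ℝ) ^ (-(3/2) : ℝ) * (x.2 : ℝ)⁻¹ := by
        rw [Nat.sum_divisorsAntidiagonal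
          (f := fun a b => (a : ℝ) ^ (-(3/2) : ℝ) * (b : ℝ)⁻¹)]
        congr 1
        apply sum_congr rfl
        intro d hd
        obtain ⟨⟨m, rfl⟩, _⟩ := Nat.mem_divisors.mp hd
        have hd0 : 0 < d := Nat.pos_of_mem_divisors hd
        have hd' : (0 : ℝ) < d := by exact_mod_cast hd0
        rw [Nat.mul_div_cancel_left m hd0]
        push_cast
        have e : (d : ℝ) ^ (-(3/2) : ℝ) = (d : ℝ)⁻¹ * (d : ℝ) ^ (-(1/2) : ℝ) := by
          rw [← Real.rpow_neg_one, ← Real.rpow_add hd']; norm_num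
        rw [e, mul_inv]
        ring

theorem sum_le (y : ℕ) :
    ∑ k ∈ Icc 1 y, ∑ x ∈ k.divisorsAntidiagonal, (x.1 : ℝ) ^ (-(3/2) : ℝ) * (x.2 : ℝ)⁻¹ ≤
      (∑' d : ℕ, (d : ℝ) ^ (-(3/2) : ℝ)) * (1 + Real.log y) := by
  have hsum : Summable (fun d : ℕ => (d : ℝ) ^ (-(3/2) : ℝ)) :=
    Real.summable_nat_rpow.mpr (by norm_num)
  set S := (Icc 1 y ×ˢ Icc 1 y).filter (fun x : ℕ × ℕ => x.1 * x.2 ≤ y) with hS
  have h1 : ∀ x ∈ S, x.1 * x.2 ∈ Icc 1 y := by
    intro x hx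
    rw [hS, mem_filter, mem_product, mem_Icc, mem_Icc] at hx
    rw [mem_Icc]
    exact ⟨Nat.mul_pos hx.1.1.1 hx.1.2.1, hx.2⟩
  have h2 := sum_fiberwise_of_maps_to h1
    (fun x : ℕ × ℕ => (x.1 : ℝ) ^ (-(3/2) : ℝ) * (x.2 : ℝ)⁻¹)
  have h3 : ∀ k ∈ Icc 1 y, k.divisorsAntidiagonal = S.filter (fun x => x.1 * x.2 = k) := by
    intro k hk
    rw [mem_Icc] at hk
    ext ⟨a, b⟩
    rw [Nat.mem_divisorsAntidiagonal, hS, mem_filter, mem_filter, mem_product, mem_Icc, mem_Icc]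
    simp only
    constructor
    · rintro ⟨rfl, hne⟩
      have ha : 0 < a := Nat.pos_of_ne_zero (by rintro rfl; simp at hne)
      have hb : 0 < b := Nat.pos_of_ne_zero (by rintro rfl; simp at hne)
      exact ⟨⟨⟨⟨ha, by nlinarith⟩, ⟨hb, by nlinarith⟩⟩, hk.2⟩, rfl⟩
    · rintro ⟨_, rfl⟩
      exact ⟨rfl, by omega⟩
  rw [sum_congr rfl (fun k hk => by rw [h3 k hk]), h2]
  calc ∑ x ∈ S, (x.1 : ℝ) ^ (-(3/2) : ℝ) * (x.2 : ℝ)⁻¹
      ≤ ∑ x ∈ Icc 1 y ×ˢ Icc 1 y, (x.1 : ℝ) ^ (-(3/2) : ℝ) * (x.2 : ℝ)⁻¹ :=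
        sum_le_sum_of_subset_of_nonneg (filter_subset _ _) (fun x _ _ => by positivity)
    _ = (∑ d ∈ Icc 1 y, (d : ℝ) ^ (-(3/2) : ℝ)) * ∑ m ∈ Icc 1 y, (m : ℝ)⁻¹ := by
        rw [sum_product, sum_mul_sum]
    _ ≤ (∑' d : ℕ, (d : ℝ) ^ (-(3/2) : ℝ)) * (1 + Real.log y) := by
        apply mul_le_mul
        · exact hsum.sum_le_tsum _ (fun d _ => by positivity)
        · have := harmonic_le_one_add_log y
          rw [harmonic_eq_sum_Icc] at this
          push_cast at this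
          exact this
        · exact sum_nonneg fun m _ => by positivity
        · exact tsum_nonneg fun d => by positivity

theorem sphi : SPhi := by
  have hsum : Summable (fun d : ℕ => (d : ℝ) ^ (-(3/2) : ℝ)) :=
    Real.summable_nat_rpow.mpr (by norm_num)
  have hpos : 0 < ∑' d : ℕ, (d : ℝ) ^ (-(3/2) : ℝ) :=
    hsum.tsum_pos (fun d => by positivity) 1 (by norm_num)
  refine ⟨4 ^ 36 * ∑' d : ℕ, (d : ℝ) ^ (-(3/2) : ℝ), by positivity, fun y hy => ?_⟩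
  have hly : 0 ≤ Real.log y := Real.log_natCast_nonneg y
  calc ∑ k ∈ Icc 1 y, (k : ℝ) * (1 + Real.log k) / (Nat.totient k : ℝ) ^ 2
      ≤ ∑ k ∈ Icc 1 y, (4 ^ 36 * ∑ x ∈ k.divisorsAntidiagonal,
          (x.1 : ℝ) ^ (-(3/2) : ℝ) * (x.2 : ℝ)⁻¹) * (1 + Real.log y) := by
        apply sum_le_sum
        intro k hk
        rw [mem_Icc] at hk
        have hk1 : (1 : ℝ) ≤ k := by exact_mod_cast hk.1
        have h1 := term_le k hk.1
        have h2 : Real.log k ≤ Real.log y :=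
          Real.log_le_log (by linarith) (by exact_mod_cast hk.2)
        have h3 : 0 ≤ Real.log k := Real.log_natCast_nonneg k
        calc (k : ℝ) * (1 + Real.log k) / (Nat.totient k : ℝ) ^ 2
            = (k : ℝ) / (Nat.totient k : ℝ) ^ 2 * (1 + Real.log k) := by ring
          _ ≤ _ := by
            apply mul_le_mul h1 (by linarith) (by linarith)
            exact le_trans (by positivity) h1
    _ = 4 ^ 36 * (∑ k ∈ Icc 1 y, ∑ x ∈ k.divisorsAntidiagonal,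
          (x.1 : ℝ) ^ (-(3/2) : ℝ) * (x.2 : ℝ)⁻¹) * (1 + Real.log y) := by
        rw [← sum_mul, ← mul_sum]
    _ ≤ 4 ^ 36 * ((∑' d : ℕ, (d : ℝ) ^ (-(3/2) : ℝ)) * (1 + Real.log y)) * (1 + Real.log y) := by
        apply mul_le_mul_of_nonneg_right _ (by linarith)
        apply mul_le_mul_of_nonneg_left (sum_le y) (by positivity)
    _ = _ := by ring

end Pool.Agent.W557.SDSPhi
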