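import Pool.Agent.W426.LE.SG
set_option autoImplicit false
set_option linter.all false

/-! LINK: comparison of the two models of `K_{2p}` (project LE of helper426). -/

namespace Pool.Agent.W557.LELink

open Finset Pool.Agent.W426.LE
open scoped Classical

/-- the neighbour of `v` in direction `d` -/
def nb {p : ℕ} {I : Type} (σ : I → ZMod p) : ZMod p × Bool → DD I (ZMod p) → ZMod p × Bool
  | (y, b), .inl (i, true) => (y + σ i, b)
  | (y, b), .inl (i, false) => (y - σ i, b)
  | (y, false), .inr t => (y + t, true)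
  | (y, true), .inr t => (y - t, false)

def rev {p : ℕ} {I : Type} : DD I (ZMod p) → DD I (ZMod p)
  | .inl (i, b) => .inl (i, !b)
  | .inr t => .inr t

theorem nb_rev {p : ℕ} {I : Type} (σ : I → ZMod p) (v : ZMod p × Bool) (d : DD I (ZMod p)) :
    nb σ (nb σ v d) (rev d) = v := by
  obtain ⟨y, b⟩ := v
  rcases d with ⟨i, c⟩ | t
  · cases c <;> simp [nb, rev]
  · cases b <;> simp [nb, rev]

theorem inc_rev {p : ℕ} {I : Type} (σ : I → ZMod p) (v : ZMod p × Bool) (d : DD I (ZMod p)) :
    inc (fun _ => σ) (fun t : ZMod p => t) (nb σ v d) (rev d) =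
      inc (fun _ => σ) (fun t : ZMod p => t) v d := by
  obtain ⟨y, b⟩ := v
  rcases d with ⟨i, c⟩ | t
  · cases c <;> simp [nb, rev, inc]
  · cases b <;> simp [nb, rev, inc]

theorem nb_tw {p : ℕ} {I : Type} (σ : I → ZMod p) (v : ZMod p × Bool) (d : DD I (ZMod p)) :
    nb σ (tw 1 1 v) d = tw 1 1 (nb σ v d) := by
  obtain ⟨y, b⟩ := v
  rcases d with ⟨i, c⟩ | t
  · cases b <;> cases c <;> simp [nb, tw] <;> ring
  · cases b <;> simp [nb, tw] <;> ring

theorem inc_tw {p : ℕ} {I : Type} (σ : I → ZMod p) (v : ZMod p × Bool) (d : DD I (ZMod p)) :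
    inc (fun _ => σ) (fun t : ZMod p => t) (tw 1 1 v) d =
      rot (inc (fun _ => σ) (fun t : ZMod p => t) v d) := by
  obtain ⟨y, b⟩ := v
  rcases d with ⟨i, c⟩ | t
  · cases b <;> cases c <;> simp [inc, tw, rot] <;> ring
  · cases b <;> simp [inc, tw, rot] <;> ring

theorem inc_surj {p : ℕ} {I : Type} (σ : I → ZMod p) (e : EE I (ZMod p) p) :
    ∃ v d, inc (fun _ => σ) (fun t : ZMod p => t) v d = e := by
  rcases e with ⟨b, i, y⟩ | ⟨t, y⟩
  · exact ⟨(y, b), .inl (i, true), by simp [inc]⟩
  · exact ⟨(y, false), .inr t, by simp [inc]⟩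

/-- the labelling of the vertices seen from `v` -/
def lamf {p : ℕ} {I : Type} (σ : I → ZMod p) (v : ZMod p × Bool) : Option (DD I (ZMod p)) → ZMod p × Bool
  | none => v
  | some d => nb σ v d

theorem lamf_bij {p : ℕ} {I : Type} (σ : I → ZMod p) (hσ : Half {z | z ≠ 0} σ) (v : ZMod p × Bool) :
    Function.Bijective (lamf σ v) := by
  obtain ⟨h1, h2, h3⟩ := hσ
  have hne : ∀ i, σ i ≠ 0 := fun i => by
    have := h1 (Set.mem_univ (i, true))
    simpa using this
  have hinj : ∀ i c i' c', (if c = true then σ i else - σ i) = (if c' = true then σ i' else - σ i') →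
      i = i' ∧ c = c' := by
    intro i c i' c' h
    have := h2 (Set.mem_univ (i, c)) (Set.mem_univ (i', c')) h
    simpa using this
  obtain ⟨y, b⟩ := v
  have key : ∀ i c, nb σ (y, b) (.inl (i, c)) = (y + (if c = true then σ i else - σ i), b) := by
    intro i c; cases c <;> simp [nb, sub_eq_add_neg]
  constructor
  · intro o o' h
    rcases o with _ | (⟨i, c⟩ | t) <;> rcases o' with _ | (⟨i', c'⟩ | t')
    · rfl
    · exfalso
      simp only [lamf, key, Prod.mk.injEq, and_true] at h
      cases c' <;> simp [hne] at h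
    · exfalso; cases b <;> simp [lamf, nb] at h
    · exfalso
      simp only [lamf, key, Prod.mk.injEq, and_true] at h
      cases c <;> simp [hne] at h
    · simp only [lamf, key, Prod.mk.injEq, and_true, add_right_inj] at h
      obtain ⟨rfl, rfl⟩ := hinj _ _ _ _ h
      rfl
    · exfalso; cases b <;> simp [lamf, key] at h <;> simp [nb] at h
    · exfalso; cases b <;> simp [lamf, nb] at h
    · exfalso; cases b <;> simp [lamf, key] at h <;> simp [nb] at h
    · cases b
      · simp [lamf, nb] at h; rw [h]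
      · simp [lamf, nb] at h; rw [h]
  · rintro ⟨z, b'⟩
    by_cases hb : b' = b
    · subst hb
      by_cases hz : z = y
      · subst hz; exact ⟨none, rfl⟩
      · obtain ⟨⟨i, c⟩, -, hq⟩ := h3 (show z - y ∈ {z : ZMod p | z ≠ 0} from sub_ne_zero.2 hz)
        refine ⟨some (.inl (i, c)), ?_⟩
        simp only at hq
        simp only [lamf, key, hq]
        simp
    · cases b <;> cases b' <;> simp at hb
      · exact ⟨some (.inr (z - y)), by simp [lamf, nb]⟩
      · exact ⟨some (.inr (y - z)), by simp [lamf, nb]⟩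

noncomputable def lam {p : ℕ} {I : Type} (σ : I → ZMod p) (hσ : Half {z | z ≠ 0} σ) (v : ZMod p × Bool) :
    Option (DD I (ZMod p)) ≃ ZMod p × Bool := Equiv.ofBijective _ (lamf_bij σ hσ v)

theorem lam_none {p : ℕ} {I : Type} (σ : I → ZMod p) (hσ : Half {z | z ≠ 0} σ) (v : ZMod p × Bool) :
    lam σ hσ v none = v := rfl

theorem lam_some {p : ℕ} {I : Type} (σ : I → ZMod p) (hσ : Half {z | z ≠ 0} σ) (v : ZMod p × Bool)
    (d : DD I (ZMod p)) : lam σ hσ v (some d) = nb σ v d := rfl

theorem lam_tw {p : ℕ} {I : Type} (σ : I → ZMod p) (hσ : Half {z | z ≠ 0} σ) (v : ZMod p × Bool)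
    (o : Option (DD I (ZMod p))) : lam σ hσ (tw 1 1 v) o = tw 1 1 (lam σ hσ v o) := by
  rcases o with _ | d
  · rfl
  · rw [lam_some, lam_some, nb_tw]

/-- matrix of a colouring -/
noncomputable def Phi {p : ℕ} {I F : Type} (σ : I → ZMod p) (hσ : Half {z | z ≠ 0} σ)
    (x : EE I (ZMod p) p → CC p F) : ZMod p × Bool → ZMod p × Bool → Option (CC p F) :=
  fun v u => Option.map (fun d => x (inc (fun _ => σ) (fun t : ZMod p => t) v d)) ((lam σ hσ v).symm u)

theorem Phi_lam {p : ℕ} {I F : Type} (σ : I → ZMod p) (hσ : Half {z | z ≠ 0} σ)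
    (x : EE I (ZMod p) p → CC p F) (v : ZMod p × Bool) (o : Option (DD I (ZMod p))) :
    Phi σ hσ x v (lam σ hσ v o) =
      Option.map (fun d => x (inc (fun _ => σ) (fun t : ZMod p => t) v d)) o := by
  simp [Phi]

theorem Phi_inj {p : ℕ} {I F : Type} (σ : I → ZMod p) (hσ : Half {z | z ≠ 0} σ) :
    Function.Injective (Phi σ hσ (F := F)) := by
  intro x x' h
  ext1 e
  obtain ⟨v, d, rfl⟩ := inc_surj σ e
  have h1 := Phi_lam σ hσ x v (some d)
  have h2 := Phi_lam σ hσ x' v (some d)
  rw [h] at h1
  rw [h1] at h2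
  simpa using h2

theorem Phi_symm {p : ℕ} {I F : Type} (σ : I → ZMod p) (hσ : Half {z | z ≠ 0} σ)
    (x : EE I (ZMod p) p → CC p F) : SymM (Phi σ hσ x) := by
  constructor
  · intro v
    have := Phi_lam σ hσ x v none
    rwa [lam_none] at this
  · intro v u
    obtain ⟨o, rfl⟩ := (lam σ hσ v).surjective u
    rcases o with _ | d
    · rfl
    · have h1 := Phi_lam σ hσ x v (some d)
      have h2 := Phi_lam σ hσ x (nb σ v d) (some (rev d))
      rw [h1]
      rw [lam_some] at h2 ⊢
      rw [nb_rev] at h2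
      rw [h2]
      simp [inc_rev]

/-- the colouring of a matrix -/
noncomputable def bk {p : ℕ} {I F : Type} [Inhabited (CC p F)] (σ : I → ZMod p)
    (M : ZMod p × Bool → ZMod p × Bool → Option (CC p F)) : EE I (ZMod p) p → CC p F
  | .inl (b, i, y) => (M (y, b) (y + σ i, b)).getD default
  | .inr (t, y) => (M (y, false) (y + t, true)).getD default

theorem surj {p : ℕ} {I F : Type} [Fact p.Prime] (σ : I → ZMod p) (hσ : Half {z | z ≠ 0} σ)
    (M : ZMod p × Bool → ZMod p × Bool → Option (CC p F)) (hM : SymM M)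
    (hbij : ∀ v, Function.Injective (M v)) : ∃ x, Phi σ hσ x = M := by
  haveI : Inhabited (CC p F) := ⟨Sum.inl 0⟩
  refine ⟨bk σ M, ?_⟩
  have hne : ∀ v u, u ≠ v → ∃ c, M v u = some c := by
    intro v u h
    rcases hc : M v u with _ | c
    · exfalso; apply h
      apply hbij v
      rw [hc, hM.1 v]
    · exact ⟨c, rfl⟩
  have hlam : ∀ v d, nb σ v d ≠ v := by
    intro v d h
    have := (lam σ hσ v).injective (a₁ := some d) (a₂ := none) h
    simp at this
  ext1 v; ext1 u
  obtain ⟨o, rfl⟩ := (lam σ hσ v).surjective u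
  rw [Phi_lam]
  rcases o with _ | d
  · rw [lam_none, hM.1 v]; rfl
  · rw [lam_some]
    obtain ⟨c, hc⟩ := hne v (nb σ v d) (hlam v d)
    rw [hc]
    simp only [Option.map_some, Option.some.injEq]
    obtain ⟨y, b⟩ := v
    rcases d with ⟨i, e⟩ | t
    · cases e
      · have hc' := hc
        rw [hM.2] at hc'
        simp only [nb] at hc'
        simp [inc, bk, hc']
      · simp only [nb] at hc
        simp [inc, bk, hc]
    · cases b
      · simp only [nb] at hc
        simp [inc, bk, hc]
      · have hc' := hc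
        rw [hM.2] at hc'
        simp only [nb] at hc'
        simp [inc, bk, hc']

theorem key {p : ℕ} {I F : Type} [Fact p.Prime] [Fintype I] [Fintype F] (σ : I → ZMod p)
    (hσ : Half {z | z ≠ 0} σ) (ρ' : ZMod p × Bool ≃ Option (CC p F))
    (P : (ZMod p × Bool → ZMod p × Bool → Option (CC p F)) → Prop) :
    ∑ M ∈ univ.filter (fun M : ZMod p × Bool → ZMod p × Bool → Option (CC p F) => SymM M ∧ P M),
        ∏ v, sg ρ' (M v) =
      ∑ x ∈ univ.filter (fun x : EE I (ZMod p) p → CC p F => P (Phi σ hσ x)),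
        ∏ v, sg ρ' (Phi σ hσ x v) := by
  symm
  apply Finset.sum_of_injOn (Phi σ hσ)
  · exact (Phi_inj σ hσ).injOn
  · intro x hx
    simp only [coe_filter, mem_univ, true_and, Set.mem_setOf_eq] at hx ⊢
    exact ⟨Phi_symm σ hσ x, hx⟩
  · intro M hM hM'
    simp only [mem_filter, mem_univ, true_and] at hM
    by_contra hne
    apply hM'
    have hb : ∀ v, Function.Injective (M v) := by
      intro v
      have : sg ρ' (M v) ≠ 0 := by
        intro h0; apply hne
        exact Finset.prod_eq_zero (mem_univ v) h0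
      exact ((sg_ne_zero_iff ρ' (M v)).1 this).1
    obtain ⟨x, hx⟩ := surj σ hσ M hM.1 hb
    refine ⟨x, ?_, hx⟩
    simp only [coe_filter, mem_univ, true_and, Set.mem_setOf_eq]
    rw [hx]; exact hM.2
  · intro x hx; rfl

/-- signs for the option types -/
theorem sg_option {D C : Type} [Fintype D] (ρ : D ≃ C) (f : D → C) :
    sg (Equiv.optionCongr ρ) (Option.map f) = sg ρ f := by
  by_cases h : Function.Bijective f
  · obtain ⟨e, rfl⟩ := exists_equiv f h
    have h1 : (Option.map (e : D → C)) = ((Equiv.optionCongr e : Option D ≃ Option C) : Option D → Option C) := by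
      ext1 o; rcases o with _ | d <;> simp
    rw [h1, sg_equiv, sg_equiv]
    have h2 : (Equiv.optionCongr e).trans (Equiv.optionCongr ρ).symm =
        Equiv.optionCongr (e.trans ρ.symm) := by
      ext1 o; rcases o with _ | d <;> simp
    rw [h2]
    have h3 := Equiv.optionCongr_sign (e.trans ρ.symm : Equiv.Perm D)
    rw [← h3]
    have sgi : ∀ {α : Type} (i1 i2 : DecidableEq α) (f1 f2 : Fintype α) (σ : Equiv.Perm α),
        ((@Equiv.Perm.sign α i1 f1 σ : ℤˣ) : ℤ) = ((@Equiv.Perm.sign α i2 f2 σ : ℤˣ) : ℤ) := by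
      intro α i1 i2 f1 f2 σ
      have h1 : i1 = i2 := Subsingleton.elim _ _
      have h2 : f1 = f2 := Subsingleton.elim _ _
      subst h1
      subst h2
      rfl
    exact sgi _ _ _ _ _
  · rw [sg_of_not ρ f h, sg_of_not]
    intro h'
    apply h
    constructor
    · intro a b hab
      have := @h'.1 (some a) (some b) (by simp [hab])
      simpa using this
    · intro c
      obtain ⟨o, ho⟩ := h'.2 (some c)
      rcases o with _ | d
      · simp at ho
      · exact ⟨d, by simpa using ho⟩

theorem sg_lam {V D C : Type} [Fintype V] [Fintype D] (ρ : D ≃ C) (ρ' : V ≃ Option C) (l : Option D ≃ V)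
    (f : D → C) :
    sg ρ' (fun u => Option.map f (l.symm u)) =
      sg ρ' (fun u => Option.map ρ (l.symm u)) * sg ρ f := by
  have h1 : ∀ f : D → C, sg ρ' (fun u => Option.map f (l.symm u)) = sg (l.trans ρ') (Option.map f) := by
    intro f
    have := sg_comp_equiv ρ' (fun u => Option.map f (l.symm u)) l
    rw [← this]
    simp
  rw [h1, h1]
  have h2 : (Option.map ρ) = ((Equiv.optionCongr ρ : Option D ≃ Option C) : Option D → Option C) := by
    ext1 o; rcases o with _ | d <;> simp
  rw [sg_change (l.trans ρ') (Equiv.optionCongr ρ) (Option.map f), sg_option, h2]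

theorem P_iff {p : ℕ} {I F : Type} (σ : I → ZMod p) (hσ : Half {z | z ≠ 0} σ) (j : ZMod p)
    (x : EE I (ZMod p) p → CC p F) :
    (∀ u v, Phi σ hσ x (tw 1 1 u) (tw 1 1 v) = Option.map (sh j) (Phi σ hσ x u v)) ↔
      ∀ e, x (rot e) = sh j (x e) := by
  constructor
  · intro h e
    obtain ⟨v, d, rfl⟩ := inc_surj σ e
    have := h v (lam σ hσ v (some d))
    rw [← lam_tw, Phi_lam, Phi_lam] at this
    simp only [Option.map_some, Option.some.injEq, inc_tw] at this
    exact this
  · intro h u v
    obtain ⟨o, rfl⟩ := (lam σ hσ u).surjective v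
    rw [← lam_tw, Phi_lam, Phi_lam, Option.map_map]
    congr 1
    ext1 d
    simp only [inc_tw, h, Function.comp]

theorem main : S_LINK := by
  intro p hp hp2 I F _ _ σ hσ ρ ρ'
  have hη : ∀ x : EE I (ZMod p) p → CC p F, ∏ v, sg ρ' (Phi σ hσ x v) =
      (∏ v, sg ρ' (fun u => Option.map ρ ((lam σ hσ v).symm u))) *
        ∏ v, sg ρ (fun i => x (inc (fun _ => σ) (fun t : ZMod p => t) v i)) := by
    intro x
    rw [← Finset.prod_mul_distrib]
    apply Finset.prod_congr rfl
    intro v _
    exact sg_lam ρ ρ' (lam σ hσ v) _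
  refine ⟨∏ v, sg ρ' (fun u => Option.map ρ ((lam σ hσ v).symm u)), ?_, ?_, ?_⟩
  · rw [← Finset.prod_mul_distrib]
    apply Finset.prod_eq_one
    intro v _
    apply sg_sq
    have h2 : (fun u => Option.map ρ ((lam σ hσ v).symm u)) =
        (((lam σ hσ v).symm.trans (Equiv.optionCongr ρ) : ZMod p × Bool ≃ Option (CC p F)) :
          ZMod p × Bool → Option (CC p F)) := by
      ext1 u; simp
    rw [h2]; exact Equiv.bijective _
  · have h := key (I := I) σ hσ ρ' (fun _ => True)
    simp only [and_true] at h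
    unfold NM NN
    rw [Finset.mul_sum]
    refine Eq.trans ?_ (h.trans ?_)
    · apply Finset.sum_congr
      · ext x; simp
      · intro x _; rfl
    · apply Finset.sum_congr
      · ext x; simp
      · intro x _
        rw [hη]
  · intro j
    have h := key (I := I) σ hσ ρ' (fun M => ∀ u v, M (tw 1 1 u) (tw 1 1 v) = Option.map (sh j) (M u v))
    unfold FIX ZZ
    rw [Finset.mul_sum]
    refine Eq.trans ?_ (h.trans ?_)
    · apply Finset.sum_congr
      · ext x; simp
      · intro x _; rfl
    · apply Finset.sum_congr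
      · ext x
        simp only [mem_filter, mem_univ, true_and]
        exact P_iff σ hσ j x
      · intro x _
        rw [hη]

end Pool.Agent.W557.LELink
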