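import Pool.Agent.W519.N

open Set Topology Filter

namespace Pool.Agent.W519.N

universe u

/-- a set all of whose uniformly separated subsets are countable is separable -/
theorem separated_F {X : Type*} [MetricSpace X] {S : Set X}
    (h1 : ¬ TopologicalSpace.IsSeparable S) :
    ∃ ε : ℝ, 0 < ε ∧ ∃ D : Set X, D ⊆ S ∧ ¬ D.Countable ∧
      ∀ x ∈ D, ∀ y ∈ D, x ≠ y → ε ≤ dist x y := by
  by_contra hcon
  push Not at hcon
  apply h1
  -- maximal separated sets
  have hmax : ∀ ε : ℝ, 0 < ε → ∃ t : Set X, t.Countable ∧ ∀ x ∈ S, ∃ y ∈ t, dist x y < ε := by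
    intro ε hε
    obtain ⟨t, ht⟩ := zorn_subset {D : Set X | D ⊆ S ∧ ∀ x ∈ D, ∀ y ∈ D, x ≠ y → ε ≤ dist x y} (by
      intro c hc hch
      refine ⟨⋃₀ c, ⟨?_, ?_⟩, fun s hs => subset_sUnion_of_mem hs⟩
      · exact sUnion_subset fun s hs => (hc hs).1
      · rintro x ⟨s, hs, hxs⟩ y ⟨s', hs', hys'⟩ hxy
        rcases hch.total hs hs' with hss | hss
        · exact (hc hs').2 x (hss hxs) y hys' hxy
        · exact (hc hs).2 x hxs y (hss hys') hxy)
    refine ⟨t, ?_, ?_⟩
    · by_contra hct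
      obtain ⟨x, hx, y, hy, hxy, hlt⟩ := hcon ε hε t ht.prop.1 hct
      exact absurd (ht.prop.2 x hx y hy hxy) (not_le.2 hlt)
    · intro x hx
      by_contra hno
      push Not at hno
      have hins : insert x t ∈ {D : Set X | D ⊆ S ∧ ∀ x ∈ D, ∀ y ∈ D, x ≠ y → ε ≤ dist x y} := by
        refine ⟨insert_subset hx ht.prop.1, ?_⟩
        rintro a (rfl | ha) b (rfl | hb) hab
        · exact absurd rfl hab
        · exact hno b hb
        · rw [dist_comm]; exact hno a ha
        · exact ht.prop.2 a ha b hb hab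
      have h2 := ht.le_of_ge hins (subset_insert x t)
      have h3 : x ∈ t := h2 (mem_insert x t)
      have h4 := hno x h3
      rw [dist_self] at h4
      linarith
  choose! T hTc hT using hmax
  refine ⟨⋃ n : ℕ, T (1 / ((n : ℝ) + 1)), countable_iUnion fun n => hTc _ (by positivity), ?_⟩
  intro x hx
  rw [Metric.mem_closure_iff]
  intro ε hε
  obtain ⟨n, hn⟩ := exists_nat_one_div_lt hε
  obtain ⟨y, hy, hxy⟩ := hT (1 / ((n : ℝ) + 1)) (by positivity) x hx
  exact ⟨y, mem_iUnion.2 ⟨n, hy⟩, lt_trans hxy hn⟩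

/-- sequences converging to non-isolated points -/
theorem seq_F {X : Type*} [MetricSpace X] {d : X} (hd : d ∈ NonIso X) {ε : ℝ} (hε : 0 < ε) :
    ∃ s : ℕ → X, (∀ n, s n ≠ d) ∧ (∀ n, dist (s n) d < ε) ∧ Tendsto s atTop (𝓝 d) := by
  have h : ∀ r : ℝ, 0 < r → ∃ z, z ≠ d ∧ dist z d < r := by
    intro r hr
    by_contra hcon
    push Not at hcon
    apply hd
    rw [Metric.isOpen_iff]
    rintro x rfl
    refine ⟨r, hr, fun z hz => ?_⟩
    by_contra hzx
    exact absurd (hcon z hzx) (not_le.2 hz)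
  have h2 : ∀ n : ℕ, ∃ z, z ≠ d ∧ dist z d < min ε (1 / ((n : ℝ) + 1)) :=
    fun n => h _ (lt_min hε (by positivity))
  choose s hs1 hs2 using h2
  refine ⟨s, hs1, fun n => lt_of_lt_of_le (hs2 n) (min_le_left _ _), ?_⟩
  rw [tendsto_iff_dist_tendsto_zero]
  exact squeeze_zero (fun n => dist_nonneg)
    (fun n => (lt_of_lt_of_le (hs2 n) (min_le_right _ _)).le) tendsto_one_div_add_atTop_nhds_zero_nat

/-- the combinatorial core: an uncountable well-order with countable initial segments -/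
theorem pigeon_F {I : Type*} [LinearOrder I] (hI : ¬ (univ : Set I).Countable) (f g : I → ℕ) :
    ∃ (m n : ℕ) (b : I), f b = m ∧ g b = n ∧ {a | a < b ∧ f a = m ∧ g a = n}.Infinite := by
  by_contra hcon
  push Not at hcon
  apply hI
  have h : ∀ mn : ℕ × ℕ, {i : I | f i = mn.1 ∧ g i = mn.2}.Countable := by
    rintro ⟨m, n⟩
    have hinj : InjOn (fun b : I => {a | a < b ∧ f a = m ∧ g a = n}.ncard)
        {i : I | f i = m ∧ g i = n} := by
      have hlt : ∀ b c : I, (f b = m ∧ g b = n) → (f c = m ∧ g c = n) → b < c →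
          {a | a < b ∧ f a = m ∧ g a = n}.ncard < {a | a < c ∧ f a = m ∧ g a = n}.ncard := by
        intro b c hb hc hbc
        apply ncard_lt_ncard _ (hcon m n c hc.1 hc.2)
        refine ⟨fun a ha => ⟨lt_trans ha.1 hbc, ha.2⟩, fun hsub => ?_⟩
        exact absurd (hsub (show b ∈ {a | a < c ∧ f a = m ∧ g a = n} from ⟨hbc, hb⟩)).1
          (lt_irrefl b)
      intro b hb c hc hbc
      rcases lt_trichotomy b c with h | h | h
      · exact absurd hbc (ne_of_lt (hlt b c hb hc h))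
      · exact h
      · exact absurd hbc (ne_of_gt (hlt c b hc hb h))
    exact (Set.countable_iff_exists_injOn).2 ⟨_, hinj⟩
  have h3 := countable_iUnion h
  refine h3.mono fun i _ => ?_
  rw [mem_iUnion]
  exact ⟨(f i, g i), rfl, rfl⟩

/-- the index set -/
theorem index_F {X : Type u} {D : Set X} (hD : ¬ D.Countable) :
    ∃ (I : Type u) (_ : LinearOrder I) (q p : I → X), (¬ (univ : Set I).Countable) ∧
      (∀ b : I, (Iio b).Countable) ∧ (∀ i, q i ∈ D) ∧ (∀ i, p i ∈ D) ∧
      Function.Injective q ∧ Function.Injective p ∧ ∀ i j, q i ≠ p j := by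
  refine ⟨(Cardinal.aleph.{u} 1).ord.ToType, inferInstance, ?_⟩
  have hmk : Cardinal.mk (Cardinal.aleph.{u} 1).ord.ToType = Cardinal.aleph.{u} 1 := by
    rw [Cardinal.mk_toType, Cardinal.card_ord]
  have hI : ¬ (univ : Set (Cardinal.aleph.{u} 1).ord.ToType).Countable := by
    rw [Cardinal.countable_iff_lt_aleph_one, Cardinal.mk_univ, hmk]
    exact lt_irrefl _
  have hseg : ∀ b : (Cardinal.aleph.{u} 1).ord.ToType, (Iio b).Countable := by
    intro b
    rw [Cardinal.countable_iff_lt_aleph_one]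
    have := Cardinal.mk_Iio_lt b (by simp)
    rwa [hmk] at this
  have hle : Cardinal.mk ((Cardinal.aleph.{u} 1).ord.ToType ⊕ (Cardinal.aleph.{u} 1).ord.ToType)
      ≤ Cardinal.mk D := by
    rw [Cardinal.mk_sum, hmk, Cardinal.lift_id, Cardinal.add_eq_self (Cardinal.aleph0_le_aleph 1)]
    rw [Cardinal.countable_iff_lt_aleph_one, not_lt] at hD
    exact hD
  obtain ⟨φ⟩ := hle
  refine ⟨fun i => (φ (Sum.inl i) : X), fun i => (φ (Sum.inr i) : X), hI, hseg,
    fun i => (φ (Sum.inl i)).2, fun i => (φ (Sum.inr i)).2, ?_, ?_, ?_⟩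
  · intro i j hij
    exact Sum.inl_injective (φ.injective (Subtype.ext hij))
  · intro i j hij
    exact Sum.inr_injective (φ.injective (Subtype.ext hij))
  · intro i j hij
    exact absurd (φ.injective (Subtype.ext hij)) (by simp)

theorem not_allNormal_of_not_separable {X : Type*} [MetricSpace X]
    (h1 : ¬ TopologicalSpace.IsSeparable (NonIso X)) : ¬ AllNormal X := by
  obtain ⟨ε, hε, D, hDS, hDc, hD⟩ := separated_F h1
  obtain ⟨I, _, q, p, hI, hseg, hqD, hpD, hq, hp, hqp⟩ := index_F hDc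
  have hsq : ∀ d ∈ D, ∃ s : ℕ → X, (∀ n, s n ≠ d) ∧ (∀ n, dist (s n) d < ε / 4) ∧
      Tendsto s atTop (𝓝 d) := fun d hd => seq_F (hDS hd) (by linarith)
  choose! s hs1 hs2 hs3 using hsq
  have hinj : ∀ b : I, ∃ e : I → ℕ, InjOn e (Iio b) := fun b =>
    (Set.countable_iff_exists_injOn).1 (hseg b)
  choose e he using hinj
  -- two points near points of `D` that are close come from the same point
  have hnear : ∀ d ∈ D, ∀ d' ∈ D, ∀ u v : X, dist u d < ε / 4 → dist v d' < ε / 4 →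
      dist u v < ε / 2 → d = d' := by
    intro d hd d' hd' u v hu hv huv
    by_contra hne
    have h2 := hD d hd d' hd' hne
    have h3 : dist d d' ≤ dist d u + dist u v + dist v d' := dist_triangle4 d u v d'
    rw [dist_comm d u] at h3
    linarith
  have hself : ∀ d : X, dist d d < ε / 4 := fun d => by rw [dist_self]; linarith
  set R : X → X → Prop := fun u v => u = v ∨ ∃ a b : I, a < b ∧ u = s (q a) (e b a) ∧
    v = s (p b) (e b a) with hR
  have hRc : ClosedPreorder R := by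
    refine ⟨fun x => Or.inl rfl, ?_, ?_⟩
    · intro x y z hxy hyz
      rcases hxy with rfl | ⟨a, b, hab, hx, hy⟩
      · exact hyz
      rcases hyz with rfl | ⟨a', b', hab', hy', hz⟩
      · exact Or.inr ⟨a, b, hab, hx, hy⟩
      exfalso
      refine hqp a' b ?_
      refine hnear _ (hqD a') _ (hpD b) y y ?_ ?_ ?_
      · rw [hy']; exact hs2 _ (hqD a') _
      · rw [hy]; exact hs2 _ (hpD b) _
      · rw [dist_self]; linarith
    · have h2 : {x : X × X | R x.1 x.2} = {x : X × X | x.1 = x.2} ∪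
          {x : X × X | ∃ a b : I, a < b ∧ x.1 = s (q a) (e b a) ∧ x.2 = s (p b) (e b a)} := rfl
      rw [h2]
      refine (isClosed_eq continuous_fst continuous_snd).union ?_
      refine Metric.isClosed_of_pairwise_le_dist (ε := ε / 2) (by linarith) ?_
      rintro ⟨u, v⟩ ⟨a, b, hab, hu, hv⟩ ⟨u', v'⟩ ⟨a', b', hab', hu', hv'⟩ hne
      by_contra hlt
      rw [not_le] at hlt
      rw [Prod.dist_eq, max_lt_iff] at hlt
      simp only at hu hv hu' hv' hlt
      have h3 : q a = q a' := hnear _ (hqD a) _ (hqD a') u u' (by rw [hu]; exact hs2 _ (hqD a) _)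
        (by rw [hu']; exact hs2 _ (hqD a') _) hlt.1
      have h4 : p b = p b' := hnear _ (hpD b) _ (hpD b') v v' (by rw [hv]; exact hs2 _ (hpD b) _)
        (by rw [hv']; exact hs2 _ (hpD b') _) hlt.2
      have h5 := hq h3
      have h6 := hp h4
      subst h5 h6
      apply hne
      rw [hu, hv, hu', hv']
  have hcl : ∀ w : I → X, (∀ i, w i ∈ D) → IsClosed (range w) := by
    intro w hw
    refine Metric.isClosed_of_pairwise_le_dist (ε := ε) hε ?_
    rintro _ ⟨i, rfl⟩ _ ⟨j, rfl⟩ hne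
    exact hD _ (hw i) _ (hw j) hne
  intro hall
  obtain ⟨U, V, hU, hUd, hV, hVi, hAU, hBV, hUV⟩ := hall R hRc (range p) (range q) (hcl p hpD) (by
      rintro z x (rfl | ⟨a, b, hab, hz, hx⟩) hxA
      · exact hxA
      exfalso
      obtain ⟨c, rfl⟩ := hxA
      have h2 : p b = p c := hnear _ (hpD b) _ (hpD c) (p c) (p c)
        (by conv_lhs => rw [hx]
            exact hs2 _ (hpD b) _) (hself _) (by rw [dist_self]; linarith)
      rw [← h2] at hx
      exact hs1 _ (hpD b) _ hx.symm) (hcl q hqD) (by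
      rintro x z (rfl | ⟨a, b, hab, hx, hz⟩) hxB
      · exact hxB
      exfalso
      obtain ⟨c, rfl⟩ := hxB
      have h2 : q a = q c := hnear _ (hqD a) _ (hqD c) (q c) (q c)
        (by conv_lhs => rw [hx]
            exact hs2 _ (hqD a) _) (hself _) (by rw [dist_self]; linarith)
      rw [← h2] at hx
      exact hs1 _ (hqD a) _ hx.symm) (by
      rw [Set.disjoint_left]
      rintro _ ⟨i, rfl⟩ ⟨j, hj⟩
      exact hqp j i hj)
  have hf : ∀ a : I, ∃ n : ℕ, ∀ k ≥ n, s (q a) k ∈ V := fun a =>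
    eventually_atTop.1 ((hs3 _ (hqD a)).eventually (hV.mem_nhds (hBV ⟨a, rfl⟩)))
  have hg : ∀ b : I, ∃ n : ℕ, ∀ k ≥ n, s (p b) k ∈ U := fun b =>
    eventually_atTop.1 ((hs3 _ (hpD b)).eventually (hU.mem_nhds (hAU ⟨b, rfl⟩)))
  choose f hf using hf
  choose g hg using hg
  obtain ⟨m, n, b, hfb, hgb, hinf⟩ := pigeon_F hI f g
  have hinf2 : (e b '' {a | a < b ∧ f a = m ∧ g a = n}).Infinite :=
    hinf.image ((he b).mono fun a ha => ha.1)
  obtain ⟨k, ⟨a, ⟨hab, hfa, hga⟩, rfl⟩, hk⟩ := hinf2.exists_gt (max m n)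
  have h2 : s (q a) (e b a) ∈ V := hf a _ (by rw [hfa]; exact (le_max_left m n).trans hk.le)
  have h3 : s (p b) (e b a) ∈ U := hg b _ (by rw [hgb]; exact (le_max_right m n).trans hk.le)
  have h4 : R (s (q a) (e b a)) (s (p b) (e b a)) := Or.inr ⟨a, b, hab, rfl, rfl⟩
  exact (Set.disjoint_left.1 hUV) (hUd _ _ h4 h3) h2

end Pool.Agent.W519.N
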