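import Pool.Agent.W928.MW.Six
import Pool.Agent.W928.MW.Sup

/-! # sixth moment over an interval of integer length -/

set_option autoImplicit false

open Finset MeasureTheory

namespace Pool.Agent.W557.MWINT6

open Pool.Agent.W928.MW

theorem p3_sq (k N m : ℕ) (t : ℝ) : ‖p3 k N m t‖ ^ 2 = ∑ z ∈ trs N m, ∑ w ∈ trs N m,
    Real.cos (2 * Real.pi * t * ((pw k z : ℝ) - (pw k w : ℝ))) := by
  have h1 : ((‖p3 k N m t‖ ^ 2 : ℝ) : ℂ) = p3 k N m t * (starRingEnd ℂ) (p3 k N m t) := by
    rw [Complex.mul_conj, Complex.normSq_eq_norm_sq]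
  have h2 : ‖p3 k N m t‖ ^ 2 = (p3 k N m t * (starRingEnd ℂ) (p3 k N m t)).re := by
    rw [← h1, Complex.ofReal_re]
  rw [h2]
  unfold p3
  rw [map_sum, Finset.sum_mul_sum, Complex.re_sum]
  apply Finset.sum_congr rfl
  intro z _
  rw [Complex.re_sum]
  apply Finset.sum_congr rfl
  intro w _
  rw [e_sub_re]
  congr 1
  ring

/-- the integral of one term -/
theorem int_term (a b l : ℕ) (u : ℝ) :
    ∫ t in u..(u + (l : ℝ)), Real.cos (2 * Real.pi * t * ((a : ℝ) - (b : ℝ))) =
      if b = a then (l : ℝ) else 0 := by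
  split_ifs with h
  · subst h
    simp
  · have hc : (a : ℝ) - (b : ℝ) ≠ 0 := by
      rw [sub_ne_zero]
      intro h2
      exact h (by exact_mod_cast h2.symm)
    have h0 : 2 * Real.pi * ((a : ℝ) - (b : ℝ)) ≠ 0 :=
      mul_ne_zero (mul_ne_zero two_ne_zero Real.pi_ne_zero) hc
    have h2 : (fun t : ℝ => Real.cos (2 * Real.pi * t * ((a : ℝ) - (b : ℝ)))) =
        fun t => Real.cos (2 * Real.pi * ((a : ℝ) - (b : ℝ)) * t) := by
      funext t
      congr 1
      ring
    rw [h2, intervalIntegral.integral_comp_mul_left (fun x => Real.cos x) h0, integral_cos]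
    have h3 : 2 * Real.pi * ((a : ℝ) - (b : ℝ)) * (u + (l : ℝ)) =
        2 * Real.pi * ((a : ℝ) - (b : ℝ)) * u +
          ((((a : ℤ) - (b : ℤ)) * (l : ℤ) : ℤ) : ℝ) * (2 * Real.pi) := by
      push_cast
      ring
    rw [h3, Real.sin_add_int_mul_two_pi, sub_self, smul_zero]

theorem t : S_INT6 := by
  intro k N l u
  have e0 : (fun t => Q3 k N t) = fun t => ∑ m ∈ range (3 * N + 1), ∑ z ∈ trs N m, ∑ w ∈ trs N m,
      Real.cos (2 * Real.pi * t * ((pw k z : ℝ) - (pw k w : ℝ))) := by
    funext t
    unfold Q3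
    apply Finset.sum_congr rfl
    intro m _
    exact p3_sq k N m t
  have ec : ∀ c : ℝ, Continuous fun t : ℝ => Real.cos (2 * Real.pi * t * c) := by
    intro c
    fun_prop
  rw [e0, intervalIntegral.integral_finset_sum]
  · have h1 : ∀ m ∈ range (3 * N + 1), ∫ t in u..(u + (l : ℝ)), ∑ z ∈ trs N m, ∑ w ∈ trs N m,
        Real.cos (2 * Real.pi * t * ((pw k z : ℝ) - (pw k w : ℝ))) =
        ∑ z ∈ trs N m, (l : ℝ) * (((trs N m).filter (fun w => pw k w = pw k z)).card : ℝ) := by
      intro m _
      rw [intervalIntegral.integral_finset_sum]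
      · apply Finset.sum_congr rfl
        intro z _
        rw [intervalIntegral.integral_finset_sum]
        · rw [Finset.sum_congr rfl (fun w _ => int_term (pw k z) (pw k w) l u),
            ← Finset.sum_filter, Finset.sum_const, nsmul_eq_mul, mul_comm]
        · intro w _
          exact (ec _).intervalIntegrable _ _
      · intro z _
        exact (continuous_finset_sum _ (fun w _ => ec _)).intervalIntegrable _ _
    rw [Finset.sum_congr rfl h1]
    unfold cnt
    push_cast
    rw [Finset.mul_sum]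
    apply Finset.sum_congr rfl
    intro m _
    rw [Finset.mul_sum]
  · intro m _
    exact (continuous_finset_sum _ (fun z _ => continuous_finset_sum _ (fun w _ => ec _))).intervalIntegrable _ _

end Pool.Agent.W557.MWINT6
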