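import Pool.Agent.W373.Unif.Basic

/-!
# Weight projections and the rotation on a nilpotent Lie algebra with a model
-/

set_option autoImplicit false

namespace Pool.Agent.W557.UnifProj

open Pool.Agent.W373.Unif

variable {R L : Type} [CommRing R] [LieRing L] [LieAlgebra R L] {x : X → L}

/-- induction over `L` -/
theorem indR {P : L → Prop} (M : Model R L x) (h1 : ∀ a, P (x a)) (h2 : ∀ w, P (b2 x w))
    (h3 : ∀ w, P (b3 x w)) (h4 : ∀ w, P (b4 x w)) (h0 : P 0)
    (hadd : ∀ y z, P y → P z → P (y + z)) (hs : ∀ (t : R) y, P y → P (t • y)) (y : L) :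
    P y := by
  have h := M.span y
  induction h using Submodule.span_induction with
  | mem y hy =>
    rcases hy with ((⟨a, rfl⟩ | ⟨w, rfl⟩) | ⟨w, rfl⟩) | ⟨w, rfl⟩
    · exact h1 a
    · exact h2 w
    · exact h3 w
    · exact h4 w
  | zero => exact h0
  | add y z _ _ hy hz => exact hadd y z hy hz
  | smul t y _ hy => exact hs t y hy

/-- linear maps which agree on words are equal -/
theorem ext_words {N : Type} [AddCommGroup N] [Module R N] (M : Model R L x) (f g : L →ₗ[R] N)
    (h1 : ∀ a, f (x a) = g (x a)) (h2 : ∀ w, f (b2 x w) = g (b2 x w))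
    (h3 : ∀ w, f (b3 x w) = g (b3 x w)) (h4 : ∀ w, f (b4 x w) = g (b4 x w)) (y : L) :
    f y = g y :=
  indR (P := fun y => f y = g y) M h1 h2 h3 h4 (by simp) (fun y z hy hz => by simp [hy, hz])
    (fun t y hy => by simp [hy]) y

/-! ## supports -/

section Supp
variable (M : Model R L x)

theorem supp1 (a b : X) (h : wt b ≠ wt a) : M.cf1 (x a) b = 0 := by
  rw [M.cf1_x, Pi.single_eq_of_ne]
  rintro rfl; exact h rfl

theorem supp2 (w v : W2) (h : wt2 v ≠ wt2 w) : M.cf2 (b2 x w) v = 0 := by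
  obtain ⟨a, b⟩ := w
  have h1 : v ≠ (a, b) := by rintro rfl; exact h rfl
  have h2 : v ≠ (b, a) := by rintro rfl; exact h (by simp only [wt2]; omega)
  rw [M.cf2_b2]
  simp [Pi.single_apply, h1, h2]

theorem supp3 (w v : W3) (h : wt3 v ≠ wt3 w) : M.cf3 (b3 x w) v = 0 := by
  obtain ⟨a, b, c⟩ := w
  have h1 : v ≠ (a, b, c) := by rintro rfl; exact h rfl
  have h2 : v ≠ (a, c, b) := by rintro rfl; exact h (by simp only [wt2, wt3]; omega)
  have h3 : v ≠ (b, c, a) := by rintro rfl; exact h (by simp only [wt2, wt3]; omega)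
  have h4 : v ≠ (c, b, a) := by rintro rfl; exact h (by simp only [wt2, wt3]; omega)
  rw [M.cf3_b3]
  simp [Pi.single_apply, h1, h2, h3, h4]

theorem supp4 (w v : W4) (h : wt4 v ≠ wt4 w) : M.cf4 (b4 x w) v = 0 := by
  obtain ⟨a, b, c, d⟩ := w
  have h1 : v ≠ (a, b, c, d) := by rintro rfl; exact h rfl
  have h2 : v ≠ (a, b, d, c) := by rintro rfl; exact h (by simp only [wt2, wt3, wt4]; omega)
  have h3 : v ≠ (a, c, d, b) := by rintro rfl; exact h (by simp only [wt2, wt3, wt4]; omega)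
  have h4 : v ≠ (a, d, c, b) := by rintro rfl; exact h (by simp only [wt2, wt3, wt4]; omega)
  have h5 : v ≠ (b, c, d, a) := by rintro rfl; exact h (by simp only [wt2, wt3, wt4]; omega)
  have h6 : v ≠ (b, d, c, a) := by rintro rfl; exact h (by simp only [wt2, wt3, wt4]; omega)
  have h7 : v ≠ (c, d, b, a) := by rintro rfl; exact h (by simp only [wt2, wt3, wt4]; omega)
  have h8 : v ≠ (d, c, b, a) := by rintro rfl; exact h (by simp only [wt2, wt3, wt4]; omega)
  rw [M.cf4_b4]
  simp [Pi.single_apply, h1, h2, h3, h4, h5, h6, h7, h8]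

end Supp

/-! ## projections -/

section Proj
variable (M : Model R L x) (S : ℕ → Prop) [DecidablePred S]

/-- masked word sum, as a linear map -/
noncomputable def T {W : Type} [Fintype W] (cf : L →ₗ[R] (W → R)) (wtf : W → ℕ) (B : W → L)
    (S : ℕ → Prop) [DecidablePred S] : L →ₗ[R] L :=
  ∑ w, if S (wtf w) then
    (LinearMap.toSpanSingleton R L (B w)).comp ((LinearMap.proj w).comp cf) else 0

theorem T_apply {W : Type} [Fintype W] (cf : L →ₗ[R] (W → R)) (wtf : W → ℕ) (B : W → L)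
    (y : L) : T cf wtf B S y = ∑ w, if S (wtf w) then cf y w • B w else 0 := by
  rw [T, LinearMap.sum_apply]
  refine Finset.sum_congr rfl fun w _ => ?_
  split_ifs
  · simp
  · simp

theorem T_supp {W : Type} [Fintype W] (cf : L →ₗ[R] (W → R)) (wtf : W → ℕ) (B : W → L)
    (y : L) (N : ℕ) (h : ∀ w, wtf w ≠ N → cf y w = 0) :
    T cf wtf B S y = if S N then ∑ w, cf y w • B w else 0 := by
  rw [T_apply]
  by_cases hN : S N
  · rw [if_pos hN]
    refine Finset.sum_congr rfl fun w _ => ?_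
    by_cases hw : wtf w = N
    · rw [hw, if_pos hN]
    · rw [h w hw]; simp
  · rw [if_neg hN]
    refine Finset.sum_eq_zero fun w _ => ?_
    by_cases hw : wtf w = N
    · rw [hw, if_neg hN]
    · rw [h w hw]; simp

theorem T_zero {W : Type} [Fintype W] (cf : L →ₗ[R] (W → R)) (wtf : W → ℕ) (B : W → L)
    (y : L) (h : cf y = 0) : T cf wtf B S y = 0 := by
  rw [T_apply]
  refine Finset.sum_eq_zero fun w _ => ?_
  rw [h]; simp

/-- the projection to the weights in `S`; `u` is the inverse of `12` -/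
noncomputable def E (u : R) : L →ₗ[R] L :=
  u • ((12 : R) • T M.cf1 wt x S + (6 : R) • T M.cf2 wt2 (b2 x) S +
    (4 : R) • T M.cf3 wt3 (b3 x) S + (3 : R) • T M.cf4 wt4 (b4 x) S)

variable {S} {u : R}

theorem E_apply (y : L) : E M S u y = u • ((12 : R) • T M.cf1 wt x S y +
    (6 : R) • T M.cf2 wt2 (b2 x) S y + (4 : R) • T M.cf3 wt3 (b3 x) S y +
    (3 : R) • T M.cf4 wt4 (b4 x) S y) := rfl

theorem E_of (hD : S_Dsw) (hu : u * 12 = 1) (y : L) (N : ℕ)
    (h1 : ∀ w, wt w ≠ N → M.cf1 y w = 0) (h2 : ∀ w, wt2 w ≠ N → M.cf2 y w = 0)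
    (h3 : ∀ w, wt3 w ≠ N → M.cf3 y w = 0) (h4 : ∀ w, wt4 w ≠ N → M.cf4 y w = 0) :
    E M S u y = if S N then y else 0 := by
  rw [E_apply, T_supp S _ _ _ _ N h1, T_supp S _ _ _ _ N h2, T_supp S _ _ _ _ N h3,
    T_supp S _ _ _ _ N h4]
  by_cases hN : S N
  · simp only [if_pos hN]
    rw [← hD R L x M y, smul_smul, hu, one_smul]
  · simp only [if_neg hN, smul_zero, add_zero]

theorem E_x (hD : S_Dsw) (hu : u * 12 = 1) (a : X) :
    E M S u (x a) = if S (wt a) then x a else 0 :=
  E_of M hD hu _ _ (fun w hw => supp1 M a w hw) (fun w _ => by rw [M.cf2_x]; rfl)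
    (fun w _ => by rw [M.cf3_x]; rfl) (fun w _ => by rw [M.cf4_x]; rfl)

theorem E_b2 (hD : S_Dsw) (hu : u * 12 = 1) (w : W2) :
    E M S u (b2 x w) = if S (wt2 w) then b2 x w else 0 :=
  E_of M hD hu _ _ (fun v _ => by rw [M.cf1_b2]; rfl) (fun v hv => supp2 M w v hv)
    (fun v _ => by rw [M.cf3_b2]; rfl) (fun v _ => by rw [M.cf4_b2]; rfl)

theorem E_b3 (hD : S_Dsw) (hu : u * 12 = 1) (w : W3) :
    E M S u (b3 x w) = if S (wt3 w) then b3 x w else 0 :=
  E_of M hD hu _ _ (fun v _ => by rw [M.cf1_b3]; rfl) (fun v _ => by rw [M.cf2_b3]; rfl)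
    (fun v hv => supp3 M w v hv) (fun v _ => by rw [M.cf4_b3]; rfl)

theorem E_b4 (hD : S_Dsw) (hu : u * 12 = 1) (w : W4) :
    E M S u (b4 x w) = if S (wt4 w) then b4 x w else 0 :=
  E_of M hD hu _ _ (fun v _ => by rw [M.cf1_b4]; rfl) (fun v _ => by rw [M.cf2_b4]; rfl)
    (fun v _ => by rw [M.cf3_b4]; rfl) (fun v hv => supp4 M w v hv)

theorem E_wsp (hD : S_Dsw) (hu : u * 12 = 1) (j : ℕ) (z : L) (hz : z ∈ wsp R x j) :
    E M S u z = if S j then z else 0 := by
  induction hz using Submodule.span_induction with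
  | mem y hy =>
    rcases hy with ((⟨a, rfl, rfl⟩ | ⟨w, rfl, rfl⟩) | ⟨w, rfl, rfl⟩) | ⟨w, rfl, rfl⟩
    · exact E_x M hD hu a
    · exact E_b2 M hD hu w
    · exact E_b3 M hD hu w
    · exact E_b4 M hD hu w
  | zero => simp
  | add y z _ _ hy hz => rw [map_add, hy, hz]; split_ifs <;> simp
  | smul t y _ hy => rw [map_smul, hy]; split_ifs <;> simp

/-- multigraded ideals are stable under the projections -/
theorem E_mem (hD : S_Dsw) (hu : u * 12 = 1) (I : LieIdeal R L) (hI : MG x I) (y : L)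
    (hy : y ∈ I) : E M S u y ∈ I := by
  have h := hI y hy
  refine Submodule.iSup_induction (fun j : ℕ => (I : Submodule R L) ⊓ wsp R x j)
    (motive := fun y => E M S u y ∈ I) h (fun j z hz => ?_) ?_ (fun y z hy hz => ?_)
  · rw [E_wsp M hD hu j z hz.2]
    split_ifs
    · exact hz.1
    · exact I.zero_mem
  · rw [map_zero]; exact I.zero_mem
  · rw [map_add]; exact I.add_mem hy hz

end Proj

/-! ## rotation -/

section Rot
variable (M : Model R L x)

/-- the rotation of `L` -/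
noncomputable def rho : L →ₗ⁅R⁆ L := M.lift (fun a => x (rot a))

theorem rho_x (a : X) : rho M (x a) = x (rot a) := M.lift_x _ _
theorem rho_b2 (w : W2) : rho M (b2 x w) = b2 x (rot2 w) := by
  simp only [b2, rot2, LieHom.map_lie, rho_x]
theorem rho_b3 (w : W3) : rho M (b3 x w) = b3 x (rot3 w) := by
  simp only [b3, rot3, LieHom.map_lie, rho_x, rho_b2]
theorem rho_b4 (w : W4) : rho M (b4 x w) = b4 x (rot4 w) := by
  simp only [b4, rot4, LieHom.map_lie, rho_x, rho_b3]

theorem rho_mem (I : LieIdeal R L) (hI : RotSt x I) (y : L) (hy : y ∈ I) : rho M y ∈ I :=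
  hI (rho M) (fun a => rho_x M a) y hy

theorem rho_iter_x (n : ℕ) (a : X) : (rho M)^[n] (x a) = x (rot^[n] a) := by
  induction n generalizing a with
  | zero => rfl
  | succ n ih => rw [Function.iterate_succ_apply, rho_x, ih, Function.iterate_succ_apply]

theorem rho_five (y : L) : rho M (rho M (rho M (rho M (rho M y)))) = y := by
  have h1 : ∀ a : X, rot (rot (rot (rot (rot a)))) = a := by decide +kernel
  have h2 : ∀ a : W2, rot2 (rot2 (rot2 (rot2 (rot2 a)))) = a := by decide +kernel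
  have h3 : ∀ a : W3, rot3 (rot3 (rot3 (rot3 (rot3 a)))) = a := by decide +kernel
  have h4 : ∀ a : W4, rot4 (rot4 (rot4 (rot4 (rot4 a)))) = a := by decide +kernel
  refine indR (P := fun y => rho M (rho M (rho M (rho M (rho M y)))) = y) M (fun a => ?_)
    (fun w => ?_) (fun w => ?_) (fun w => ?_) (by simp) (fun y z hy hz => ?_) (fun t y hy => ?_) y
  · simp only [rho_x, h1]
  · simp only [rho_b2, h2]
  · simp only [rho_b3, h3]
  · simp only [rho_b4, h4]
  · simp only [map_add, hy, hz]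
  · simp only [map_smul, hy]

end Rot

end Pool.Agent.W557.UnifProj
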